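import Mathlib

/-!
Independent families, extension of characters and quotient sizes for abelian groups.
The first section repeats the algebra of `Pos/Grp.lean`; the rest is its form outside a model.
-/

namespace Pool.Agent.Lib.MP_fe6d4f_gt.V

open Function AddSubgroup Cardinal

export AddSubgroup (closure closure_mono subset_closure closure_union closure_empty closure_induction)

universe u v w

section Alg

variable {G : Type u} [AddCommGroup G]

theorem mem_cl {S : Set G} {x : G} :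
    x ∈ closure S ↔ ∃ l : List G, (∀ y ∈ l, y ∈ S ∨ -y ∈ S) ∧ l.sum = x := by
  constructor
  · intro h
    have : x ∈ AddSubmonoid.closure (S ∪ -S) := closure_toAddSubmonoid S ▸ h
    exact AddSubmonoid.exists_list_of_mem_closure this
  · rintro ⟨l, h, rfl⟩
    exact list_sum_mem fun y hy => (h y hy).elim (subset_closure ·)
      fun e => neg_mem_iff.1 (subset_closure e)

theorem fin_cl {S : Set G} {x : G} (h : x ∈ closure S) :
    ∃ F : Finset G, ↑F ⊆ S ∧ x ∈ closure (F : Set G) := by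
  classical
  induction h using closure_induction with
  | mem x hx => exact ⟨{x}, by simpa using hx, subset_closure (by simp)⟩
  | zero => exact ⟨∅, by simp, zero_mem _⟩
  | add x y _ _ a b =>
    obtain ⟨F, a1, a2⟩ := a
    obtain ⟨E, b1, b2⟩ := b
    exact ⟨F ∪ E, by simp [a1, b1], add_mem (closure_mono (by simp) a2) (closure_mono (by simp) b2)⟩
  | neg x _ a => exact a.imp fun F h => ⟨h.1, neg_mem h.2⟩

theorem fin_sup {H : AddSubgroup G} {S : Set G} {x : G} (h : x ∈ H ⊔ closure S) :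
    ∃ F : Finset G, ↑F ⊆ S ∧ x ∈ H ⊔ closure (F : Set G) := by
  obtain ⟨a, ha, b, hb, rfl⟩ := mem_sup.1 h
  exact (fin_cl hb).imp fun F h => ⟨h.1, add_mem_sup ha h.2⟩

theorem mem_ins {H : AddSubgroup G} {S : Set G} {a x : G} (h : x ∈ H ⊔ closure (insert a S)) :
    ∃ j : ℤ, x - j • a ∈ H ⊔ closure S := by
  rw [Set.insert_eq, closure_union, sup_left_comm] at h
  obtain ⟨b, hb, c, hc, rfl⟩ := mem_sup.1 h
  obtain ⟨j, rfl⟩ := mem_closure_singleton.1 hb
  exact ⟨j, by simpa using hc⟩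

theorem natAbs_mem {K : AddSubgroup G} {j : ℤ} {a : G} : j.natAbs • a ∈ K ↔ j • a ∈ K := by
  obtain ⟨n, rfl | rfl⟩ := j.eq_nat_or_neg <;> simp

/-- Independence modulo `H`. -/
def Ind (H : AddSubgroup G) (Z : G → ℕ → Prop) (S : Set G) : Prop :=
  ∀ s ∈ S, ∀ k : ℕ, k • s ∈ H ⊔ closure (S \ {s}) → Z s k

theorem Ind.mono {H : AddSubgroup G} {Z : G → ℕ → Prop} {S S' : Set G} (h : Ind H Z S)
    (e : S' ⊆ S) : Ind H Z S' := fun s hs k hk =>
  h s (e hs) k (sup_le_sup_left (closure_mono (Set.sdiff_subset_sdiff_left e)) H hk)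

theorem Ind.eq {H : AddSubgroup G} {Z : G → ℕ → Prop} {S : Set G} (h : Ind H Z S) {s t : G}
    (hs : s ∈ S) (ht : t ∈ S) {k : ℕ} (hk : ¬ Z s k) (e : k • s - k • t ∈ H) : s = t :=
  by_contra fun c => hk (h s hs k (by
    simpa using add_mem_sup e (nsmul_mem (subset_closure (k := S \ {s}) ⟨ht, Ne.symm c⟩) k)))

theorem Ind.insert {H : AddSubgroup G} {Z : G → ℕ → Prop} {S : Set G} (h : Ind H Z S) {a : G}
    (hZ : ∀ k, Z a k → k • a ∈ H) (ha : ∀ k : ℕ, k • a ∈ H ⊔ closure S → Z a k) :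
    Ind H Z (insert a S) := by
  intro s hs k hk
  by_cases e : s = a
  · subst e
    exact ha k (sup_le_sup_left (closure_mono fun x hx => hx.1.resolve_left hx.2) H hk)
  have hs' := hs.resolve_left e
  obtain ⟨j, hj⟩ := mem_ins (a := a) (S := S \ {s})
    (sup_le_sup_left (closure_mono fun x hx => hx.1.imp_right fun c => ⟨c, hx.2⟩) H hk)
  have h1 : j • a ∈ H ⊔ closure S := by
    simpa using sub_mem (mem_sup_right (nsmul_mem (subset_closure hs') k))
      (sup_le_sup_left (closure_mono Set.sdiff_subset) H hj)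
  exact h s hs' k (by
    simpa using add_mem hj (mem_sup_left (natAbs_mem.1 (hZ _ (ha _ (natAbs_mem.2 h1))))))

theorem ind_graph {T : Type v} [AddCommGroup T] {N : AddSubgroup G} {S : Set G}
    (h : Ind N (fun s k => k • s ∈ N) S) (f : G → T)
    (hf : ∀ s ∈ S, ∀ k : ℕ, k • s ∈ N → k • f s = 0) :
    ∀ p ∈ closure ((fun s => (s, f s)) '' S), p.1 ∈ N → p.2 = 0 := by
  classical
  intro p hp
  obtain ⟨F, h1, h2⟩ := fin_cl hp
  clear hp
  induction F using Finset.induction_on generalizing p with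
  | empty => intro _; simp only [Finset.coe_empty, closure_empty, mem_bot] at h2; rw [h2]; rfl
  | insert e F he ih =>
    intro hp
    rw [Finset.coe_insert, Set.insert_subset_iff] at h1
    obtain ⟨⟨s, hs, rfl⟩, h3⟩ := h1
    obtain ⟨j, hj⟩ := mem_ins (H := ⊥) (by simpa using h2)
    rw [bot_sup_eq] at hj
    have h4 : closure (F : Set (G × T)) ≤ (closure (S \ {s})).comap (AddMonoidHom.fst G T) :=
      (closure_le _).2 fun x hx => by
        obtain ⟨t, ht, rfl⟩ := h3 hx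
        exact subset_closure (k := S \ {s}) ⟨ht, fun c => he (c ▸ hx)⟩
    have h5 : j • s ∈ N := natAbs_mem.1 (h s hs _ (natAbs_mem.2 (by
      simpa using sub_mem (mem_sup_left hp) (mem_sup_right (S := N) (mem_comap.1 (h4 hj))))))
    have h6 : j • f s = 0 := mem_bot.1 (natAbs_mem.1 (hf s hs _ (natAbs_mem.2 h5)))
    simpa [h6] using ih _ h3 hj (sub_mem hp h5)

theorem sep_elt {H : AddSubgroup G} {S : Set G} {g : G} (hg : g ∈ H ⊔ closure S) (hn : g ∉ H) :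
    ∃ F : Finset G, ↑F ⊆ S ∧ ∃ s ∈ S, ∃ j : ℤ, s ∉ F ∧ j • s ∉ H ∧
      g - j • s ∈ H ⊔ closure (F : Set G) := by
  classical
  obtain ⟨F, h1, h2⟩ := fin_sup hg
  induction F using Finset.induction_on with
  | empty => exact (hn (by simpa using h2)).elim
  | insert a F ha ih =>
    rw [Finset.coe_insert] at h1 h2
    obtain ⟨j, hj⟩ := mem_ins h2
    by_cases c : j • a ∈ H
    · exact ih (Set.insert_subset_iff.1 h1).2 (by simpa using add_mem hj (mem_sup_left c))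
    · exact ⟨F, (Set.insert_subset_iff.1 h1).2, a, (Set.insert_subset_iff.1 h1).1, j, ha, c, hj⟩

/-- Pure subgroups. -/
def Pure (H : AddSubgroup G) : Prop := ∀ (k : ℕ) (g : G), k • g ∈ H → ∃ h ∈ H, k • g = k • h

theorem exists_exp {H : AddSubgroup G} {q : ℕ} (hq : 0 < q) (h : ∀ g, q • g ∈ H) :
    (∃ m, 0 < m ∧ m < q ∧ ∀ g, m • g ∈ H) ∨ ∃ a, ∀ k : ℕ, k • a ∈ H → q ∣ k := by
  have h1 : ∀ x : G ⧸ H, q • x = 0 := fun x => QuotientAddGroup.induction_on x fun g =>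
    (QuotientAddGroup.eq_zero_iff _).2 (h g)
  have h2 : AddMonoid.ExponentExists (G ⧸ H) := ⟨q, hq, h1⟩
  rcases (AddMonoid.exponent_min' q hq h1).lt_or_eq with e | e
  · exact Or.inl ⟨_, h2.exponent_pos, e, fun g => (QuotientAddGroup.eq_zero_iff _).1
      (AddMonoid.exponent_nsmul_eq_zero (g : G ⧸ H))⟩
  · obtain ⟨x, hx⟩ := AddMonoid.exists_addOrderOf_eq_exponent h2
    obtain ⟨a, rfl⟩ := QuotientAddGroup.mk_surjective x
    exact Or.inr ⟨a, fun k hk => e ▸ hx ▸ addOrderOf_dvd_of_nsmul_eq_zero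
      ((QuotientAddGroup.eq_zero_iff _).2 hk)⟩

theorem Pure.cyclic {H : AddSubgroup G} (h : Pure H) {q : ℕ} (hq : 0 < q) (h1 : ∀ g, q • g ∈ H)
    {a : G} (ha : ∀ k : ℕ, k • a ∈ H → q ∣ k) : Pure (H ⊔ closure {a}) := by
  intro k g hg
  obtain ⟨j, hj⟩ := mem_ins (H := H) (a := a) (S := ∅) (by rwa [insert_empty_eq])
  rw [closure_empty, sup_bot_eq] at hj
  obtain ⟨c, hc⟩ := Nat.gcd_dvd_right k q
  obtain ⟨d, hd⟩ := Nat.gcd_dvd_left k q
  have bz := Nat.gcd_eq_gcd_ab k q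
  generalize k.gcd q = e at hc hd bz
  generalize k.gcdA q = u at bz
  generalize k.gcdB q = v at bz
  have h2 : ((c : ℤ) * j) • a ∈ H := by
    have : c • k • g = d • q • g := by rw [smul_smul, smul_smul, hc, hd]; congr 1; ring
    have h3 := sub_mem (nsmul_mem (h1 g) d) (nsmul_mem hj c)
    rwa [smul_sub, this, sub_sub_cancel, ← natCast_zsmul, smul_smul] at h3
  have h3 : (e : ℤ) ∣ j := by
    have := ha _ (natAbs_mem.2 h2)
    rw [Int.natAbs_mul, Int.natAbs_natCast, hc, mul_comm] at this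
    exact Int.natCast_dvd.2 (Nat.dvd_of_mul_dvd_mul_left (Nat.pos_of_mul_pos_left (hc ▸ hq)) this)
  obtain ⟨n, rfl⟩ := h3
  obtain ⟨x, hx, h4⟩ := h k (g - (u * n) • a) (by
    have := add_mem hj (zsmul_mem (h1 a) (v * n))
    rw [bz] at this
    refine (congrArg (· ∈ H) ?_).mp this
    module)
  exact ⟨x + (u * n) • a, add_mem_sup hx (zsmul_mem (subset_closure (Set.mem_singleton a)) (u * n)),
    by rw [smul_add, ← h4, ← smul_add, sub_add_cancel]⟩

end Alg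

variable {G : Type u} [AddCommGroup G] {α : Type u} {H H' : AddSubgroup G} {m : ℕ}

/-- The group `m • (G / H)`. -/
def Qt (H : AddSubgroup G) (m : ℕ) : Set (G ⧸ H) := Set.range fun g : G => ((m • g : G) : G ⧸ H)

theorem le_Qt (x : α → G) (h : ∀ b c, m • x b - m • x c ∈ H → b = c) : #α ≤ #(Qt H m) :=
  mk_le_of_injective (f := fun b => (⟨_, x b, rfl⟩ : Qt H m)) fun b c e =>
    h b c (QuotientAddGroup.eq_iff_sub_mem.1 (congrArg Subtype.val e))

theorem Qt_le (y : α → G) (h : ∀ g, ∃ c, m • g - y c ∈ H) : #(Qt H m) ≤ #α := by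
  refine (mk_le_mk_of_subset (t := Set.range fun c => ((y c : G) : G ⧸ H)) ?_).trans mk_range_le
  rintro _ ⟨g, rfl⟩
  obtain ⟨c, hc⟩ := h g
  exact ⟨c, (QuotientAddGroup.eq_iff_sub_mem.2 hc).symm⟩

theorem exists_cov (h : #(Qt H m) ≤ #α) : ∃ y : α → G, ∀ g, ∃ c, m • g - y c ∈ H := by
  have : Nonempty (Qt H m) := ⟨⟨_, 0, rfl⟩⟩
  obtain ⟨f⟩ := h
  refine ⟨fun c => m • (invFun f c).2.choose, fun g => ⟨f ⟨_, g, rfl⟩, ?_⟩⟩
  refine QuotientAddGroup.eq_iff_sub_mem.1 ?_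
  have := (invFun f (f ⟨_, g, rfl⟩)).2.choose_spec
  simp only at this ⊢
  rw [this, leftInverse_invFun f.injective]

theorem Qt_mono (h : H ≤ H') : #(Qt H' m) ≤ #(Qt H m) :=
  let ⟨y, h2⟩ := exists_cov (le_refl #(Qt H m))
  Qt_le y fun g => (h2 g).imp fun _ e => h e

theorem Qt_trans (y : α → G) (h : ∀ x ∈ H', ∃ c, x - y c ∈ H) :
    #(Qt H m) ≤ #(Qt H' m) * #α := by
  obtain ⟨z, h2⟩ := exists_cov (le_refl #(Qt H' m))
  rw [mul_def]
  refine Qt_le (fun p => z p.1 + y p.2) fun g => ?_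
  obtain ⟨b, hb⟩ := h2 g
  obtain ⟨c, hc⟩ := h _ hb
  exact ⟨(b, c), by rwa [← sub_sub]⟩

theorem Qt_fin_of (l : Set G) (hl : l.Finite) (h : ∀ g, ∃ x ∈ l, m • g - x ∈ H) :
    (Qt H m).Finite := by
  refine (hl.image fun x => ((x : G) : G ⧸ H)).subset ?_
  rintro _ ⟨g, rfl⟩
  obtain ⟨x, h1, h2⟩ := h g
  exact ⟨x, h1, (QuotientAddGroup.eq_iff_sub_mem.2 h2).symm⟩

theorem Qt_fin (h : ∀ g, m • g ∈ H) : (Qt H m).Finite :=
  Qt_fin_of {0} (Set.finite_singleton _) fun g => ⟨0, rfl, by simpa using h g⟩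

theorem Qt_list (h : (Qt H m).Finite) : ∃ l : List G, ∀ g, ∃ x ∈ l, m • g - x ∈ H := by
  obtain ⟨y, hy⟩ := exists_cov (le_refl #(Qt H m))
  have := h.fintype
  exact ⟨Finset.univ.toList.map y, fun g => let ⟨c, hc⟩ := hy g;
    ⟨_, List.mem_map_of_mem (a := c) (by simp), hc⟩⟩

theorem Qt_bdd (h : (Qt (⊥ : AddSubgroup G) m).Finite) (hm : 0 < m) :
    ∃ q, 0 < q ∧ ∀ g : G, q • g = 0 := by
  obtain ⟨l, hl⟩ := Qt_list h
  have : Finite (nsmulAddMonoidHom (α := G) m).range := l.finite_toSet.subset (by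
    rintro _ ⟨g, rfl⟩
    obtain ⟨x, h1, h2⟩ := hl g
    exact (congrArg (· ∈ l) (sub_eq_zero.1 h2)).mpr h1)
  exact ⟨Nat.card (nsmulAddMonoidHom (α := G) m).range * m, mul_pos Nat.card_pos hm, fun g => by
    simpa [mul_smul] using congrArg Subtype.val
      (card_nsmul_eq_zero' (x := (⟨_, g, rfl⟩ : (nsmulAddMonoidHom (α := G) m).range)))⟩

theorem mk_cl_le {s : Set G} {c : Cardinal.{u}} (hc : ℵ₀ ≤ c) (h : #s ≤ c) :
    #(closure s) ≤ c := by
  have h1 : #(↥(s ∪ -s)) ≤ c := (mk_union_le _ _).trans (by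
    refine add_le_of_le hc h ?_
    rw [← Set.image_neg_eq_neg]
    exact mk_image_le.trans h)
  refine le_trans ?_ ((mk_list_le_max ↥(s ∪ -s)).trans (max_le hc h1))
  refine (mk_le_mk_of_subset (t := Set.range fun l : List ↥(s ∪ -s) => (l.map Subtype.val).sum)
    fun x hx => ?_).trans mk_range_le
  obtain ⟨l, h5, rfl⟩ := mem_cl.1 hx
  refine ⟨l.pmap (fun a (h : a ∈ s ∨ -a ∈ s) => ⟨a, h⟩) h5, ?_⟩
  simp [List.map_pmap]

theorem cover {β : Type u} {s : Set β} (hs : s.Nonempty) (h : #s ≤ #α) :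
    ∃ y : α → β, ∀ x ∈ s, ∃ c, y c = x := by
  have := hs.to_subtype
  obtain ⟨f⟩ := h
  exact ⟨fun c => (invFun f c).1, fun x hx => ⟨f ⟨x, hx⟩, by
    simp only [leftInverse_invFun f.injective ⟨x, hx⟩]⟩⟩

theorem cl_le [Infinite α] {s : Set G} (h : #s ≤ #α) :
    ∃ y : α → G, ∀ x ∈ closure s, ∃ c, y c = x :=
  cover (s := (closure s : Set G)) ⟨0, zero_mem _⟩ (mk_cl_le (aleph0_le_mk α) h)

theorem mk_nU {β : Type u} {A : ℕ → Set β} {c : Cardinal.{u}} (hc : ℵ₀ ≤ c)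
    (h : ∀ i, #(A i) ≤ c) : #(⋃ i, A i) ≤ c := by
  have := mk_iUnion_le_lift A
  simp only [lift_uzero, mk_eq_aleph0, lift_aleph0] at this
  exact this.trans ((mul_le_mul_right (ciSup_le h) _).trans (mul_eq_right hc hc aleph0_ne_zero).le)

theorem exists_big [Infinite α] (hp : Pure H) (x : α → G) :
    ∃ K : AddSubgroup G, H ≤ K ∧ Pure K ∧ (∀ c, x c ∈ K) ∧
      ∃ y : α → G, ∀ h ∈ K, ∃ c, h - y c ∈ H := by
  have : ∀ p : ℕ × G, ∃ z, (∃ z, p.1 • z - p.2 ∈ H) → p.1 • z - p.2 ∈ H := fun p => by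
    by_cases c : ∃ z, p.1 • z - p.2 ∈ H
    · exact c.imp fun _ e _ => e
    · exact ⟨0, fun e => (c e).elim⟩
  choose D d2 using this
  let L : ℕ → AddSubgroup G := fun n => Nat.rec (closure (Set.range x))
    (fun _ A => closure ((A : Set G) ∪ ⋃ k, (fun a => D (k, a)) '' A)) n
  have hc := aleph0_le_mk α
  have l1 : ∀ n, #(↥(L n)) ≤ #α := fun n => by
    induction n with
    | zero => exact mk_cl_le (s := Set.range x) hc mk_range_le
    | succ n ih =>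
      exact mk_cl_le (s := (L n : Set G) ∪ ⋃ k, (fun a => D (k, a)) '' (L n)) hc
        ((mk_union_le _ _).trans (add_le_of_le hc ih (mk_nU hc fun k => mk_image_le.trans ih)))
  have l2 : Monotone L := monotone_nat_of_le_succ fun n a ha => subset_closure (Or.inl ha)
  let L' : ℕ → Set G := fun n => SetLike.coe (L n)
  have l4 : #(⋃ n, L' n) ≤ #α := mk_nU hc l1
  obtain ⟨y, hy⟩ := cover ⟨0, Set.mem_iUnion.2 ⟨0, (zero_mem (L 0) : (0 : G) ∈ L 0)⟩⟩ l4
  have l3 : ∀ a, a ∈ ⨆ n, L n ↔ ∃ n, a ∈ L n := fun a => mem_iSup_of_directed l2.directed_le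
  refine ⟨H ⊔ ⨆ n, L n, le_sup_left, fun k g hg => ?_,
    fun c => mem_sup_right ((l3 _).2 ⟨0, subset_closure ⟨c, rfl⟩⟩), y, fun h hh => ?_⟩
  · obtain ⟨a, ha, b, hb, e⟩ := mem_sup.1 hg
    obtain ⟨n, hn⟩ := (l3 b).1 hb
    have h1 : k • g - b ∈ H := by rw [← e]; simpa using ha
    obtain ⟨h, h4, h5⟩ := hp k (g - D (k, b)) (by
      simpa [smul_sub] using sub_mem h1 (d2 (k, b) ⟨g, h1⟩))
    exact ⟨h + D (k, b), add_mem_sup h4 ((l3 _).2 ⟨n + 1, subset_closure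
      (Or.inr (Set.mem_iUnion.2 ⟨k, b, hn, rfl⟩))⟩),
      by rw [smul_add, ← h5, ← smul_add, sub_add_cancel]⟩
  · obtain ⟨a, ha, b, hb, rfl⟩ := mem_sup.1 hh
    obtain ⟨c, hc⟩ := hy b (Set.mem_iUnion.2 ((l3 b).1 hb))
    exact ⟨c, by simpa [hc] using ha⟩

theorem exists_ind (Z : G → ℕ → Prop) (W : Set G)
    (hW : ∀ a ∈ W, ∀ k, Z a k → k • a ∈ H) (S₀ : Set G) (h0 : S₀ ⊆ W)
    (h1 : Ind H Z S₀) : ∃ S : Set G, S₀ ⊆ S ∧ S ⊆ W ∧ Ind H Z S ∧
      ∀ a ∈ W, a ∈ S ∨ ∃ k, ¬ Z a k ∧ k • a ∈ H ⊔ closure S := by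
  classical
  have hF : Order.IsOfFiniteCharacter {S : Set G | S ⊆ W ∧ Ind H Z S} := fun S =>
    ⟨fun h y hy _ => ⟨hy.trans h.1, h.2.mono hy⟩, fun h =>
      ⟨fun a ha => (h {a} (by simpa using ha) (Set.finite_singleton a)).1 rfl, fun s hs k hk => by
        obtain ⟨F, a1, a2⟩ := fin_sup hk
        refine (h (insert s (F : Set G)) (Set.insert_subset hs (a1.trans Set.sdiff_subset))
          (F.finite_toSet.insert s)).2 s (Set.mem_insert _ _) k
          (sup_le_sup_left (closure_mono fun x hx => ?_) H a2)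
        exact ⟨Or.inr hx, (a1 hx).2⟩⟩⟩
  obtain ⟨S, h2, h3⟩ := hF.exists_maximal (x := S₀) ⟨h0, h1⟩
  refine ⟨S, h2, h3.1.1, h3.1.2, fun a ha => or_iff_not_imp_right.2 fun c => ?_⟩
  refine h3.2 (y := insert a S) ⟨Set.insert_subset ha h3.1.1,
    h3.1.2.insert (hW a ha) fun k hk => ?_⟩ (Set.subset_insert _ _) (Set.mem_insert _ _)
  exact by_contra fun d => c ⟨k, d, hk⟩

theorem exists_ext {S : Set G} (h : Ind H (fun s k => k • s ∈ H) S) (f : G → UnitAddCircle)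
    (h1 : ∀ s ∈ S, ∀ k : ℕ, k • s ∈ H → k • f s = 0) :
    ∃ φ : G →+ UnitAddCircle, (∀ x ∈ H, φ x = 0) ∧ ∀ s ∈ S, φ s = f s := by
  let Γ : AddSubgroup (G × UnitAddCircle) := H.prod ⊥ ⊔ closure ((fun s => (s, f s)) '' S)
  have h3 : ∀ p ∈ Γ, p.1 = 0 → p.2 = 0 := fun p hp e => by
    obtain ⟨a, ha, b, hb, rfl⟩ := mem_sup.1 hp
    rw [Prod.snd_add, ind_graph h f h1 b hb ?_, ha.2, add_zero]
    rw [eq_neg_of_add_eq_zero_right e]
    exact neg_mem ha.1
  obtain ⟨χ, hχ⟩ := (Module.Baer.of_divisible UnitAddCircle).extension_property_addMonoidHom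
    ((AddMonoidHom.fst G UnitAddCircle).comp Γ.subtype)
    ((injective_iff_map_eq_zero _).2 fun p e => Subtype.ext (Prod.ext e (h3 p p.2 e)))
    ((AddMonoidHom.snd G UnitAddCircle).comp Γ.subtype)
  have h5 : ∀ p ∈ Γ, χ p.1 = p.2 := fun p hp => DFunLike.congr_fun hχ ⟨p, hp⟩
  exact ⟨χ, fun x hx => h5 (x, 0) (mem_sup_left ⟨hx, rfl⟩),
    fun s hs => h5 (s, f s) (mem_sup_right (subset_closure ⟨s, hs, rfl⟩))⟩

/-- The point `1 / n` of the circle. -/
noncomputable def un (n : ℕ) : UnitAddCircle := ((1 / n : ℝ) : UnitAddCircle)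

theorem un_ord {n : ℕ} (h : 0 < n) : addOrderOf (un n) = n :=
  AddCircle.addOrderOf_period_div (p := (1 : ℝ)) h

theorem exists_un {n : ℕ} (h : 0 < n) {x : UnitAddCircle} (hx : n • x = 0) :
    ∃ j < n, x = j • un n := by
  obtain ⟨j, h1, h2⟩ := (AddCircle.nsmul_eq_zero_iff h).1 hx
  refine ⟨j, h1, h2.symm.trans ?_⟩
  rw [un, ← AddCircle.coe_nsmul]
  simp [div_eq_mul_inv]

theorem exists_tq (q : ℕ) : ∃ t : (ℕ → Bool) → UnitAddCircle, Continuous t ∧
    (∀ b, q • t b = 0) ∧ ∀ x, q • x = 0 → ∃ b, t b = x := by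
  have hc : IsClosed {x : UnitAddCircle | q • x = 0} :=
    isClosed_eq (continuous_nsmul q) continuous_const
  have := isCompact_iff_compactSpace.1 hc.isCompact
  have : Nonempty {x : UnitAddCircle | q • x = 0} := ⟨⟨0, smul_zero q⟩⟩
  obtain ⟨f, f1, f2⟩ :=
    exists_nat_bool_continuous_surjective_of_compact {x : UnitAddCircle | q • x = 0}
  exact ⟨fun b => (f b).1, continuous_subtype_val.comp f1, fun b => (f b).2,
    fun x hx => (f2 ⟨x, hx⟩).imp fun _ e => congrArg Subtype.val e⟩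

theorem exists_ord {s : G} {j : ℤ} (h : j • s ∉ H) :
    ∃ n, (∀ k : ℕ, k • s ∈ H → k • un n = 0) ∧ j • un n ≠ 0 := by
  have h1 : ∀ j : ℤ, j • s ∈ H ↔ (addOrderOf (s : G ⧸ H) : ℤ) ∣ j := fun j => by
    rw [addOrderOf_dvd_iff_zsmul_eq_zero, ← QuotientAddGroup.eq_zero_iff]; rfl
  have h2 : ∀ k : ℕ, k • s ∈ H → addOrderOf (s : G ⧸ H) ∣ k := fun k hk =>
    Int.natCast_dvd_natCast.1 ((h1 k).1 (by rwa [natCast_zsmul]))
  simp only [Ne, ← addOrderOf_dvd_iff_zsmul_eq_zero, ← addOrderOf_dvd_iff_nsmul_eq_zero]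
  rcases (addOrderOf (s : G ⧸ H)).eq_zero_or_pos with e | e
  · refine ⟨j.natAbs + 1, fun k hk => by simp [zero_dvd_iff.1 (e ▸ h2 k hk)], fun c => h ?_⟩
    rw [un_ord (Nat.succ_pos _), Int.natCast_dvd] at c
    simp [Int.natAbs_eq_zero.1 (Nat.eq_zero_of_dvd_of_lt c (Nat.lt_succ_self _))]
  · exact ⟨_, by rwa [un_ord e], by rwa [un_ord e, ← h1]⟩

end Pool.Agent.Lib.MP_fe6d4f_gt.V
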