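import Pool.Agent.Lib.MP_fe6d4f_gt.V.Top

/-!
Bogolyubov's lemma and continuous functionals on precompact groups of prime exponent.
-/

namespace Pool.Agent.Lib.MP_fe6d4f_gt.V

open Function Filter Topology Finset

universe u

theorem bog {S D : Type*} [AddCommGroup S] [Finite S] [Fintype D] (e : D → AddChar S ℂ)
    (orth : ∀ s ≠ 0, ∑ d, e d s = 0) (d0 : D) (h0 : ∀ s, e d0 s = 1) (A : Finset S)
    (hA : A.Nonempty) : ∃ Ψ : Finset D, (#Ψ : ℝ) * (#A : ℝ) ^ 2 ≤ 2 * (Fintype.card D : ℝ) ^ 2 ∧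
      ∀ s, (∀ d ∈ Ψ, e d s = 1) → ∃ a ∈ A, ∃ b ∈ A, ∃ c ∈ A, ∃ d ∈ A, a - b + (c - d) + s = 0 := by
  classical
  let n : D → ℝ := fun d => Complex.normSq (∑ a ∈ A, e d a)
  have n0 : ∀ d, 0 ≤ n d := fun d => Complex.normSq_nonneg _
  have n1 : ∀ d, (n d : ℂ) = ∑ a ∈ A, ∑ b ∈ A, e d (a - b) := fun d => by
    rw [← Complex.mul_conj, map_sum, sum_mul_sum]
    refine sum_congr rfl fun a _ => sum_congr rfl fun b _ => ?_
    rw [sub_eq_add_neg, AddChar.map_add_eq_mul, AddChar.map_neg_eq_conj]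
  have hD : (0 : ℝ) < Fintype.card D := by exact_mod_cast Fintype.card_pos_iff.2 ⟨d0⟩
  have hA' : (0 : ℝ) < #A := by exact_mod_cast hA.card_pos
  have par : ∑ d, n d = Fintype.card D * #A := by
    have : ((∑ d, n d : ℝ) : ℂ) = Fintype.card D * #A := by
      push_cast
      simp only [n1]
      rw [sum_comm, mul_comm, ← nsmul_eq_mul, ← sum_const]
      refine sum_congr rfl fun a ha => ?_
      rw [sum_comm, sum_eq_single a (fun b _ hb => orth _ (sub_ne_zero.2 hb.symm))
        fun h => (h ha).elim]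
      simp
    exact_mod_cast this
  have nd : n d0 = (#A : ℝ) ^ 2 := by simp [n, h0, sq]
  let l : ℝ := (#A : ℝ) ^ 3 / (2 * Fintype.card D)
  have l0 : 0 < l := by positivity
  refine ⟨univ.filter fun d => l < n d, ?_, fun s hs => ?_⟩
  · have h1 : (#(univ.filter fun d => l < n d) : ℝ) * l ≤ Fintype.card D * #A := by
      rw [← par, ← nsmul_eq_mul, ← sum_const]
      exact (sum_le_sum fun d hd => (mem_filter.1 hd).2.le).trans
        (sum_le_sum_of_subset_of_nonneg (subset_univ _) fun d _ _ => n0 d)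
    simp only [l] at h1
    rw [← mul_div_assoc, div_le_iff₀ (by positivity)] at h1
    refine le_of_mul_le_mul_right ?_ hA'
    nlinarith
  by_contra c
  push Not at c
  have z : ∑ d, ((n d : ℂ) * n d * e d s) = 0 := by
    have : ∀ d, (n d : ℂ) * n d * e d s =
        ∑ a ∈ A, ∑ b ∈ A, ∑ c ∈ A, ∑ f ∈ A, e d (a - b + (c - f) + s) := fun d => by
      simp only [AddChar.map_add_eq_mul, ← sum_mul, ← mul_sum, n1]
    simp only [this]
    rw [sum_comm]
    refine sum_eq_zero fun a ha => ?_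
    rw [sum_comm]
    refine sum_eq_zero fun b hb => ?_
    rw [sum_comm]
    refine sum_eq_zero fun c' hc => ?_
    rw [sum_comm]
    exact sum_eq_zero fun f hf => orth _ (c a ha b hb c' hc f hf)
  have z' : ∑ d, n d * n d * (e d s).re = 0 := by
    have := congrArg Complex.re z
    simpa [Complex.re_sum] using this
  have b : ∀ d, (if d = d0 then (#A : ℝ) ^ 4 else 0) - l * n d ≤ n d * n d * (e d s).re :=
    fun d => by
    split_ifs with h
    · rw [h, h0, nd]
      simp only [Complex.one_re]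
      nlinarith [sq_nonneg (#A : ℝ)]
    · by_cases k : l < n d
      · rw [hs d (mem_filter.2 ⟨mem_univ _, k⟩)]
        simp only [Complex.one_re]
        nlinarith [n0 d]
      · have r : -1 ≤ (e d s).re :=
          (abs_le.1 ((Complex.abs_re_le_norm _).trans ((e d).norm_apply s).le)).1
        nlinarith [n0 d, mul_nonneg (n0 d) (n0 d), mul_nonneg (n0 d) (sub_nonneg.2 (not_lt.1 k))]
  have := sum_le_sum fun d (_ : d ∈ univ) => b d
  rw [z', sum_sub_distrib, ← mul_sum, par, sum_ite_eq', if_pos (mem_univ _)] at this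
  have e : l * (Fintype.card D * #A) = (#A : ℝ) ^ 4 / 2 := by simp only [l]; field_simp
  have : (0 : ℝ) < (#A : ℝ) ^ 4 := by positivity
  linarith

variable {p : ℕ} [Fact p.Prime] {G : Type u} [AddCommGroup G] [Module (ZMod p) G]

theorem bog_lin (l : Finset G) (W V : Set G) (hl : ∀ g, ∃ a ∈ l, g - a ∈ W)
    (hV : ∀ a ∈ W, ∀ b ∈ W, ∀ c ∈ W, ∀ d ∈ W, -(a - b + (c - d)) ∈ V) (F : Finset G) :
    ∃ f : Fin (2 * #l ^ 2) → G →ₗ[ZMod p] ZMod p, ∀ g ∈ F, (∀ i, f i g = 0) → g ∈ V := by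
  classical
  let S := Submodule.span (ZMod p) (F : Set G)
  have : Finite S := Module.finite_of_finite (ZMod p)
  have := Fintype.ofFinite S
  have : Finite (Module.Dual (ZMod p) S) := Module.finite_of_finite (ZMod p)
  have := Fintype.ofFinite (Module.Dual (ZMod p) S)
  have hD : Fintype.card (Module.Dual (ZMod p) S) = Fintype.card S := by
    rw [Fintype.card_eq_nat_card, Fintype.card_eq_nat_card,
      Module.natCard_eq_pow_finrank (K := ZMod p) (V := S),
      Module.natCard_eq_pow_finrank (K := ZMod p) (V := Module.Dual (ZMod p) S),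
      Subspace.dual_finrank_eq]
  let A : G → Finset S := fun a => univ.filter fun s => s.1 - a ∈ W
  obtain ⟨a, -, ha⟩ := exists_max_image l (fun a => #(A a)) (let ⟨a, h, _⟩ := hl 0; ⟨a, h⟩)
  have h1 : Fintype.card S ≤ #l * #(A a) := by
    refine le_trans (card_le_card (t := l.biUnion A) fun s _ => ?_)
      (card_biUnion_le.trans (sum_le_card_nsmul _ _ _ ha))
    obtain ⟨b, b1, b2⟩ := hl s.1
    exact mem_biUnion.2 ⟨b, b1, mem_filter.2 ⟨mem_univ _, b2⟩⟩
  have h2 : 0 < #(A a) := Nat.pos_of_mul_pos_left (Fintype.card_pos.trans_le h1)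
  obtain ⟨Ψ, p1, p2⟩ := bog (S := S) (D := Module.Dual (ZMod p) S)
    (fun d => (ZMod.stdAddChar (N := p)).compAddMonoidHom d.toAddMonoidHom) (fun s hs => by
      obtain ⟨d, hd⟩ := Module.Projective.exists_dual_ne_zero (ZMod p) hs
      have := AddChar.sum_eq_ite ((ZMod.stdAddChar (N := p)).compAddMonoidHom
        (Module.Dual.eval (ZMod p) S s).toAddMonoidHom)
      rw [if_neg fun c => hd (ZMod.injective_stdAddChar
        ((DFunLike.congr_fun c d).trans (AddChar.map_zero_eq_one _).symm))] at this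
      exact this) 0 (fun s => by simp) (A a) (card_pos.1 h2)
  have h3 : #Ψ ≤ 2 * #l ^ 2 := by
    rw [hD] at p1
    have q1 : #Ψ * #(A a) ^ 2 ≤ 2 * Fintype.card S ^ 2 := by exact_mod_cast p1
    refine Nat.le_of_mul_le_mul_right (q1.trans ?_) (pow_pos h2 2)
    rw [mul_assoc, ← mul_pow]
    exact Nat.mul_le_mul_left _ (Nat.pow_le_pow_left h1 2)
  choose ex hex using fun d : Module.Dual (ZMod p) S => LinearMap.exists_extend d
  refine ⟨fun i => if h : i.1 < #Ψ then ex (Ψ.equivFin.symm ⟨i.1, h⟩).1 else 0, fun g hg h => ?_⟩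
  obtain ⟨b, b1, c, c1, d, d1, e, e1, k⟩ := p2 ⟨g, Submodule.subset_span hg⟩ fun d hd => by
    have := h ⟨Ψ.equivFin ⟨d, hd⟩, (Ψ.equivFin ⟨d, hd⟩).2.trans_le h3⟩
    simp only [Fin.is_lt, dif_pos, Fin.eta, Equiv.symm_apply_apply] at this
    have k : d ⟨g, Submodule.subset_span hg⟩ = 0 :=
      (DFunLike.congr_fun (hex d) ⟨g, Submodule.subset_span hg⟩).symm.trans this
    simp [k]
  have := hV _ (mem_filter.1 b1).2 _ (mem_filter.1 c1).2 _ (mem_filter.1 d1).2 _ (mem_filter.1 e1).2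
  have k' : b.1 - c.1 + (d.1 - e.1) + g = 0 := congrArg Subtype.val k
  convert this using 1
  rw [eq_neg_of_add_eq_zero_right k']
  abel

variable (p) in
include p in
theorem bog_sub (l : Finset G) (W V : Set G) (hl : ∀ g, ∃ a ∈ l, g - a ∈ W)
    (hV : ∀ a ∈ W, ∀ b ∈ W, ∀ c ∈ W, ∀ d ∈ W, -(a - b + (c - d)) ∈ V) :
    ∃ N : AddSubgroup G, N.FiniteIndex ∧ (N : Set G) ⊆ V := by
  choose f hf using bog_lin (p := p) l W V hl hV
  let U : Ultrafilter (Finset G) := Ultrafilter.of atTop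
  have : ∀ i g, ∃ c, ∀ᶠ F in U, f F i g = c := fun i g => by
    obtain ⟨c, hc⟩ := Ultrafilter.eq_pure_of_finite (U.map fun F => f F i g)
    exact ⟨c, show {c} ∈ U.map fun F => f F i g from hc ▸ rfl⟩
  choose c hc using this
  let φ : G →+ (Fin (2 * #l ^ 2) → ZMod p) := AddMonoidHom.mk' (fun g i => c i g) fun a b => by
    funext i
    obtain ⟨F, h1, h2, h3⟩ := ((hc i (a + b)).and ((hc i a).and (hc i b))).exists
    rw [Pi.add_apply, ← h1, ← h2, ← h3, map_add]
  refine ⟨φ.ker, inferInstance, fun g hg => ?_⟩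
  obtain ⟨F, h1, h2⟩ := (((eventually_ge_atTop {g}).filter_mono (Ultrafilter.of_le _)).and
    (eventually_all.2 fun i => hc i g)).exists
  exact hf F g (h1 (mem_singleton_self g)) fun i => (h2 i).trans (congrFun hg i)

theorem Feeb.exists_lin [TopologicalSpace G] [IsTopologicalAddGroup G] [T2Space G] (h : Feeb G)
    {x : G} (hx : x ≠ 0) : ∃ f : G →ₗ[ZMod p] ZMod p, IsOpen (LinearMap.ker f : Set G) ∧ f x ≠ 0 := by
  obtain ⟨V, v1, v2, v3⟩ := exists_mem_nhds_isClosed_subset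
    (isOpen_compl_singleton.mem_nhds (show (0 : G) ∈ ({x}ᶜ : Set G) from hx.symm))
  obtain ⟨A, a1, a2⟩ := exists_nhds_zero_quarter v1
  have a3 : A ∩ -A ∈ 𝓝 (0 : G) := inter_mem a1 (neg_mem_nhds_zero G a1)
  obtain ⟨l, hl⟩ := h.pre a3
  obtain ⟨N, n1, n2⟩ := bog_sub p l _ V hl fun a ha b hb c hc d hd => by
    convert a2 (Set.mem_neg.1 ha.2) hb.1 (Set.mem_neg.1 hc.2) hd.1 using 1
    abel
  have n3 : N.topologicalClosure.FiniteIndex :=
    AddSubgroup.finiteIndex_of_le N.le_topologicalClosure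
  have n4 := AddSubgroup.isOpen_of_isClosed_of_finiteIndex N.topologicalClosure
    N.isClosed_topologicalClosure
  obtain ⟨f, f1, f2⟩ := Submodule.exists_le_ker_of_notMem
    (p := AddSubgroup.toZModSubmodule p N.topologicalClosure) (v := x)
    fun e => v3 (closure_minimal n2 v2 e) rfl
  exact ⟨f, AddSubgroup.isOpen_mono (H₁ := N.topologicalClosure)
    (H₂ := (LinearMap.ker f).toAddSubgroup) (fun g hg => f2 hg) n4, f1⟩

end Pool.Agent.Lib.MP_fe6d4f_gt.V
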