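import Pool.Agent.Lib.MP_fe6d4f_gt.V.Main
import Pool.Agent.Lib.MP_fe6d4f_gt.Sp.Suf

/-!
The cardinal criterion for stationary winning strategies on torsion groups, torsion-free groups
and small groups.
-/

namespace Pool.Agent.Lib.MP_fe6d4f_gt.V

open Function Filter Topology AddSubgroup Cardinal

universe u

/-- The class of filters given by subsequences. -/
def MdS (F : Filter ℕ) : Prop := ∃ φ : ℕ → ℕ, StrictMono φ ∧ F = map φ atTop

theorem MdS.comp {φ ψ : ℕ → ℕ} (a : StrictMono φ) (b : StrictMono ψ) :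
    MdS (map (φ ∘ ψ) atTop) ∧ map (φ ∘ ψ) atTop ≤ map φ atTop :=
  ⟨⟨_, a.comp b, rfl⟩, map_mono (m := φ) b.tendsto_atTop⟩

theorem mode_S : Mode MdS := by
  rintro q x hx _ ⟨φ, h, rfl⟩
  obtain ⟨c, c1, c2⟩ : ∃ c < q, ∃ᶠ n in atTop, x (φ n) = c := by
    by_contra d
    push Not at d
    obtain ⟨n, hn⟩ := ((eventually_all_finset (Finset.range q)).2 fun k hk =>
      d k (Finset.mem_range.1 hk)).exists
    exact hn _ (Finset.mem_range.2 (hx _)) rfl
  obtain ⟨ψ, p1, p2⟩ := extraction_of_frequently_atTop c2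
  exact ⟨c, c1, _, (MdS.comp h p1).1, (MdS.comp h p1).2, eventually_map.2 (.of_forall p2)⟩

theorem spc_S (Λ : Type u) (hΛ : ℵ₀ < #Λ) (h1 : #Λ ^ ℵ₀ ≤ #Λ) : Spc MdS Λ Λ := by
  classical
  have : Infinite Λ := infinite_iff.2 hΛ.le
  refine ⟨{y | {j | y j = true}.Countable}, ?_, fun l hl => off_of hΛ l fun y hy =>
    (Set.Countable.image (hl y hy) fun j => j.2.1).mono ?_, fun l w => ?_, ?_⟩
  · refine le_trans ?_ ((mk_bounded_set_le_of_infinite (Λ × Λ × ℕ) ℵ₀).trans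
      ((power_le_power_right ?_).trans h1))
    · refine mk_le_of_injective (f := fun y => ⟨{j | y.1 j = true},
        le_aleph0_iff_set_countable.2 y.2⟩) fun y y' e => Subtype.ext (funext fun j => ?_)
      exact Bool.eq_iff_iff.2 (Set.ext_iff.1 (congrArg Subtype.val e) j)
    · simp only [mk_prod, lift_id, lift_uzero, mk_nat, lift_aleph0]
      exact mul_le_of_le hΛ.le le_rfl (mul_le_of_le hΛ.le le_rfl hΛ.le)
  · rintro ξ ⟨X, n, e⟩
    exact ⟨(X, ξ, n), e, rfl⟩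
  · refine ⟨fun j => if (j.1, j.2.1) ∈ l then w (j.1, j.2.1) j.2.2 else false, ?_,
      fun p hp n => if_pos hp⟩
    refine ((l.finite_toSet.countable.prod (Set.countable_univ (α := ℕ))).image
      fun p => (p.1.1, p.1.2, p.2)).mono fun j hj => ?_
    refine ⟨((j.1, j.2.1), j.2.2), ⟨?_, trivial⟩, rfl⟩
    by_contra d
    exact Bool.false_ne_true ((if_neg d).symm.trans hj)
  · rintro y hy _ ⟨φ, h, rfl⟩
    let J : Set (Λ × Λ × ℕ) := ⋃ n, {j | y n j = true}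
    have hJ : J.Countable := Set.countable_iUnion hy
    have := hJ.to_subtype
    obtain ⟨a, ψ, p1, p2⟩ := CompactSpace.tendsto_subseq fun n (j : J) => y (φ n) j
    refine ⟨fun j => if h : j ∈ J then a ⟨j, h⟩ else false, hJ.mono fun j hj => ?_, _,
      (MdS.comp h p1).1, (MdS.comp h p1).2, fun j => eventually_map.2 ?_⟩
    · by_contra d
      exact Bool.false_ne_true ((dif_neg d).symm.trans hj)
    · by_cases c : j ∈ J
      · simp only [dif_pos c]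
        have := tendsto_pi_nhds.1 p2 ⟨j, c⟩
        rwa [nhds_discrete, tendsto_pure] at this
      · simp only [dif_neg c]
        exact .of_forall fun n => Bool.eq_false_iff.2 fun e => c (Set.mem_iUnion.2 ⟨_, e⟩)

theorem ok_S {a b Λ : Cardinal.{u}} (h0 : ℵ₀ < Λ) (h1 : Λ ^ ℵ₀ ≤ Λ) (h2 : Λ ≤ a)
    (h3 : b ≤ (2 : Cardinal.{u}) ^ Λ) : Ok MdS a b := by
  induction Λ using Cardinal.inductionOn with | _ Λ
  exact ⟨Λ, Λ, h0, le_rfl, spc_S Λ h0 h1, h2, by rwa [mk_set]⟩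

theorem ok_S' {a b κ : Cardinal.{u}} (h0 : ℵ₀ ≤ κ) (h2 : κ ^ ℵ₀ ≤ a)
    (h3 : b ≤ (2 : Cardinal.{u}) ^ κ) : Ok MdS a b :=
  ok_S (aleph0_lt_continuum.trans_le (aleph0_power_aleph0.symm.trans_le (power_le_power_right h0)))
    (by rw [← power_mul, aleph0_mul_aleph0]) h2
    (h3.trans (power_le_power_left two_ne_zero (self_le_power κ one_le_aleph0)))

variable {G : Type u} [AddCommGroup G]

theorem mk_Qt_bot (m : ℕ) :
    #(Qt (⊥ : AddSubgroup G) m) = #(Set.range fun g : G => m • g) := by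
  rw [← mk_image_eq (f := fun g : G => (g : G ⧸ (⊥ : AddSubgroup G)))
    fun a b e => sub_eq_zero.1 (QuotientAddGroup.eq_iff_sub_mem.1 e), ← Set.range_comp]
  rfl

theorem fin_Qt_bot (m : ℕ) :
    (Qt (⊥ : AddSubgroup G) m).Finite ↔ (Set.range fun g : G => m • g).Finite := by
  rw [← lt_aleph0_iff_set_finite, ← lt_aleph0_iff_set_finite, mk_Qt_bot]

theorem suff {Md : Filter ℕ → Prop} (md : Mode Md) (adm : Adm Md (⊥ : AddSubgroup G))
    (h : (∃ q, 0 < q ∧ ∀ g : G, q • g = 0) ∨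
      ∃ m, 0 < m ∧ Ok Md (Module.rank ℤ G) #(Qt (⊥ : AddSubgroup G) m)) :
    Pp Md (⊥ : AddSubgroup G) := by
  have hp : Pure (⊥ : AddSubgroup G) := fun k g e => ⟨0, zero_mem _, by rwa [smul_zero]⟩
  rcases h with ⟨q, q1, q2⟩ | ⟨m, m1, Λ, I, hΛ, hI, sp, l1, l2⟩
  · exact bdd_step md q q1 ⊥ hp adm q2
  obtain ⟨B, b0, b1⟩ := exists_set_linearIndependent_of_isDomain ℤ G
  obtain ⟨e⟩ : #Λ ≤ #B := b0 ▸ l1
  have b2 : Ind (⊥ : AddSubgroup G) (fun _ k => 0 ∣ k) B := fun s hs k hk => by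
    rw [bot_sup_eq, ← Submodule.span_int_eq_addSubgroupClosure, ← natCast_zsmul] at hk
    have := LinearIndependent.eq_zero_of_smul_mem_span b1 ⟨s, hs⟩ (k : ℤ)
      (Submodule.span_mono (by
        intro x hx
        exact ⟨⟨x, hx.1⟩, ⟨trivial, fun c => hx.2 (congrArg Subtype.val c)⟩, rfl⟩) hk)
    simpa using this
  exact big_step hΛ hI sp hp adm zero_ne_one (by simp) (fun a => (e a).1)
    (Subtype.val_injective.comp e.injective) (by simp) (b2.mono fun _ ⟨a, h⟩ => h ▸ (e a).2) m1 l2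
    fun K => bdd_step md _ m1 K

theorem Pp.ssp (h : Pp MdS (⊥ : AddSubgroup G)) :
    ∃ τ : TopologicalSpace G, IsTopologicalAddGroup G ∧ T2Space G ∧ Sp.WinsSsp G τ := by
  obtain ⟨τ, a, b, s, s1, s2⟩ := h.final
  refine ⟨τ, a, b, s, s1, fun U _ => ?_⟩
  obtain ⟨x, _, ⟨φ, f, rfl⟩, -, e⟩ := s2 U _ ⟨id, strictMono_id, rfl⟩
  exact ⟨x, φ, f, e⟩

theorem sp_image {X Y : Type*} [τ : TopologicalSpace X] [σ : TopologicalSpace Y] {f : X → Y}
    (hf : Continuous f) (hs : Surjective f) (h : Sp.WinsSp X τ) : Sp.WinsSp Y σ := by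
  obtain ⟨s, s1, s2⟩ := h
  refine ⟨fun U => f (s (f ⁻¹' U)), fun U a b => s1 _ (a.preimage hf) (b.preimage hs),
    fun U hU => ?_⟩
  obtain ⟨x, hx⟩ := s2 (fun n => f ⁻¹' U n) fun n => ⟨(hU n).1.preimage hf, (hU n).2.preimage hs⟩
  exact ⟨f x, fun V a b => hx _ (a.preimage hf) b⟩

theorem feeb_of_sp {X : Type u} [τ : TopologicalSpace X] (h : Sp.WinsSp X τ) : Feeb X := by
  obtain ⟨s, s1, s2⟩ := h
  intro U hU
  obtain ⟨x, hx⟩ := s2 U hU
  refine ⟨x, fun W hW N => ?_⟩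
  obtain ⟨n, n1, n2⟩ := (hx _ isOpen_interior (mem_interior_iff_mem_nhds.2 hW)).exists_gt N
  exact ⟨n, n2.le, _, interior_subset n1, s1 _ (hU n).1 (hU n).2⟩

theorem Feeb.rank [TopologicalSpace G] [IsTopologicalAddGroup G] [T2Space G] (h : Feeb G) :
    (∃ q, 0 < q ∧ ∀ g : G, q • g = 0) ∨ 𝔠 ≤ Module.rank ℤ G := by
  refine or_iff_not_imp_left.2 fun c => ?_
  obtain ⟨B, b1, b2⟩ := exists_maximal_linearIndepOn ℤ (id : G → G)
  refine (h.cont_le_rank (fun m hm f => c (Qt_bdd f hm)) (B := B) fun g => ?_).trans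
    (LinearIndependent.cardinal_le_rank b1)
  by_cases d : g ∈ B
  · exact ⟨0, by simpa using subset_closure d⟩
  obtain ⟨a, a1, a2⟩ := b2 g d
  refine ⟨a.natAbs - 1, ?_⟩
  rw [Nat.sub_add_cancel (Int.natAbs_pos.2 a1), natAbs_mem,
    ← Submodule.span_int_eq_addSubgroupClosure]
  simpa using a2

/-- The cardinal criterion. -/
def Crit (G : Type u) [AddCommGroup G] : Prop :=
  (∀ m : ℕ, 0 < m → (Set.range fun g : G => m • g).Finite ∨ ∃ κ : Cardinal.{u}, ℵ₀ ≤ κ ∧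
      κ ^ ℵ₀ ≤ #(Set.range fun g : G => m • g) ∧ #(Set.range fun g : G => m • g) ≤ 2 ^ κ) ∧
    ((∃ q : ℕ, 0 < q ∧ ∀ g : G, q • g = 0) ∨ 𝔠 ≤ Module.rank ℤ G)

theorem crit_of_sp [τ : TopologicalSpace G] [IsTopologicalAddGroup G] [T2Space G]
    (h : Sp.WinsSp G τ) : Crit G := by
  refine ⟨fun m _ => or_iff_not_imp_left.2 fun c => ?_, (feeb_of_sp h).rank⟩
  let φ := nsmulAddMonoidHom (α := G) m
  have : Infinite φ.range := Set.infinite_coe_iff.2 c
  have h' := sp_image (f := φ.rangeRestrict)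
    ((continuous_nsmul m).subtype_mk _) φ.rangeRestrict_surjective h
  exact Sp.cond_of (aleph0_le_mk φ.range) fun σ x y => Sp.pow_le h' x y

theorem ssp_of_crit (hG : 𝔠 ≤ Module.rank ℤ G → ∃ m : ℕ, 0 < m ∧
      #(Set.range fun g : G => m • g) ≤ max (Module.rank ℤ G) (2 ^ (𝔠 : Cardinal.{u})))
    (h : Crit G) :
    ∃ τ : TopologicalSpace G, IsTopologicalAddGroup G ∧ T2Space G ∧ Sp.WinsSsp G τ := by
  refine (suff mode_S (fun m hm => (h.1 m hm).imp (fin_Qt_bot m).2 ?_)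
    (h.2.imp_right fun c => ?_)).ssp
  · rintro ⟨κ, a, b, c⟩
    rw [mk_Qt_bot]
    exact ok_S' a b c
  · obtain ⟨m, m1, m2⟩ := hG c
    refine ⟨m, m1, ?_⟩
    rw [mk_Qt_bot]
    by_cases d : #(Set.range fun g : G => m • g) ≤ 2 ^ (𝔠 : Cardinal.{u})
    · exact ok_S' aleph0_le_continuum (continuum_power_aleph0.trans_le c) d
    · obtain ⟨κ, k1, k2, k3⟩ := (h.1 m m1).resolve_left fun f =>
        d ((f.lt_aleph0.le.trans aleph0_le_continuum).trans (cantor _).le)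
      exact ok_S' k1 (k2.trans ((le_max_iff.1 m2).resolve_right d)) k3

theorem crit_of_small [TopologicalSpace G] [IsTopologicalAddGroup G] [T2Space G]
    (hp : ∀ f : G → ℝ, Continuous f → ∃ C, ∀ x, |f x| ≤ C)
    (h : #G ≤ 2 ^ (𝔠 : Cardinal.{u})) : Crit G := by
  refine ⟨fun m _ => or_iff_not_imp_left.2 fun c => ⟨𝔠, aleph0_le_continuum, ?_,
    mk_range_le.trans h⟩, (feeb_grp hp).rank⟩
  rw [continuum_power_aleph0, ← mk_Qt_bot]
  exact (feeb_grp hp).cont_le fun f => c ((fin_Qt_bot m).1 f)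

end Pool.Agent.Lib.MP_fe6d4f_gt.V
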