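import Pool.Agent.Lib.MP_fe6d4f_gt.V.Alg

/-!
Separating families of characters with a dense set on which sequences converge along a
prescribed class of filters.
-/

namespace Pool.Agent.Lib.MP_fe6d4f_gt.V

open Function Filter Topology AddSubgroup Cardinal

universe u

/-- Classes of filters that can be refined so as to make a bounded sequence constant. -/
def Mode (Md : Filter ℕ → Prop) : Prop :=
  ∀ (q : ℕ) (x : ℕ → ℕ), (∀ n, x n < q) → ∀ F, Md F →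
    ∃ c < q, ∃ F', Md F' ∧ F' ≤ F ∧ ∀ᶠ n in F', x n = c

/-- A small dense subset of a Cantor cube with limits along the filters of the class. -/
def Spc (Md : Filter ℕ → Prop) (I Λ : Type u) : Prop :=
  ∃ Y : Set (I × Λ × ℕ → Bool), #Y ≤ #Λ ∧
    (∀ l : List (I × Λ × ℕ → Bool), (∀ y ∈ l, y ∈ Y) → ∃ ξ, ∀ y ∈ l, ∀ X n, y (X, ξ, n) = false) ∧
    (∀ (l : List (I × Λ)) (w : I × Λ → ℕ → Bool), ∃ y ∈ Y, ∀ p ∈ l, ∀ n, y (p.1, p.2, n) = w p n) ∧
    ∀ y : ℕ → I × Λ × ℕ → Bool, (∀ n, y n ∈ Y) → ∀ F, Md F →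
      ∃ z ∈ Y, ∃ F', Md F' ∧ F' ≤ F ∧ ∀ j, ∀ᶠ n in F', y n j = z j

/-- Pairs of cardinals for which the construction works. -/
def Ok (Md : Filter ℕ → Prop) (a b : Cardinal.{u}) : Prop :=
  ∃ Λ I : Type u, ℵ₀ < #Λ ∧ #Λ ≤ #I ∧ Spc Md I Λ ∧ #Λ ≤ a ∧ b ≤ #(Set I)

variable {Md : Filter ℕ → Prop} {G : Type u} [AddCommGroup G]

/-- Admissible quotients. -/
def Adm (Md : Filter ℕ → Prop) (H : AddSubgroup G) : Prop :=
  ∀ m, 0 < m → (Qt H m).Finite ∨ Ok Md #(Qt H m) #(Qt H m)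

theorem le_of_le_mul {a b c : Cardinal.{u}} (hc : ℵ₀ ≤ c) (h : a ≤ b * c) (h' : ¬ a ≤ c) :
    a ≤ b := by
  by_contra d
  push Not at d h'
  exact (mul_lt_of_lt (hc.trans h'.le) d h').not_ge h

theorem Adm.trans {H H' : AddSubgroup G} {α : Type u} [Infinite α] (h : Adm Md H) (hle : H ≤ H')
    (y : α → G) (h1 : ∀ x ∈ H', ∃ c, x - y c ∈ H)
    (h2 : ∀ m, 0 < m → #(Qt H m) ≤ #α → (Qt H' m).Finite) : Adm Md H' := fun m hm => by
  by_cases c : #(Qt H m) ≤ #α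
  · exact Or.inl (h2 m hm c)
  have e : #(Qt H' m) = #(Qt H m) :=
    (Qt_mono hle).antisymm (le_of_le_mul (aleph0_le_mk α) (Qt_trans y h1) c)
  refine Or.inr (e ▸ (h m hm).resolve_left fun f => c ?_)
  exact f.lt_aleph0.le.trans (aleph0_le_mk α)

/-- Characters `Φ` of `G / H` separating the points of `K / H`, with a dense set `D` on which
sequences have limits. -/
structure Nice (Md : Filter ℕ → Prop) (H K : AddSubgroup G) (Φ : Set (G →+ UnitAddCircle))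
    (D : Set G) : Prop where
  van : ∀ φ ∈ Φ, ∀ x ∈ H, φ x = 0
  sep : ∀ g ∈ K, (∀ φ ∈ Φ, φ g = 0) → g ∈ H
  sub : ∀ d ∈ D, d ∈ K
  dis : ∀ x ∈ closure D, x ∈ H → x = 0
  dns : ∀ (g : G) (l : List (G →+ UnitAddCircle)), (∀ φ ∈ l, φ ∈ Φ) →
    ∃ d ∈ D, ∀ φ ∈ l, φ d = φ g
  seq : ∀ x : ℕ → G, (∀ n, x n ∈ D) → ∀ F, Md F → ∃ y ∈ D, ∃ F', Md F' ∧ F' ≤ F ∧
    ∀ ψ ∈ Φ, Tendsto (fun n => ψ (x n)) F' (𝓝 (ψ y))

/-- The property proved by induction. -/
def Pp (Md : Filter ℕ → Prop) (H : AddSubgroup G) : Prop := ∃ Φ D, Nice Md H ⊤ Φ D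

variable {H K : AddSubgroup G}

theorem Pp.top (h : ∀ g, g ∈ H) : Pp Md H :=
  ⟨∅, {0}, fun _ => False.elim, fun g _ _ => h g, fun _ _ => trivial,
    fun x hx _ => mem_bot.1 ((closure_le ⊥).2 (fun _ h => h) hx),
    fun _ _ hl => ⟨0, rfl, fun φ h => (hl φ h).elim⟩,
    fun _ _ F hF => ⟨0, rfl, F, hF, le_rfl, fun _ => False.elim⟩⟩

theorem cap {D : Set G} (hle : H ≤ K) (dis : ∀ x ∈ closure D, x ∈ K → x = 0) {x : G} (hx : x ∈ K)
    (h : x ∈ H ⊔ closure D) : x ∈ H := by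
  obtain ⟨a, ha, b, hb, rfl⟩ := mem_sup.1 h
  rwa [dis b hb (by simpa using sub_mem hx (hle ha)), add_zero]

theorem Pp.glue (hle : H ≤ K) (h : Pp Md K)
    (h' : ∀ D : Set G, (∀ x ∈ closure D, x ∈ K → x = 0) →
      ∃ Ψ E, Nice Md H K Ψ E ∧ ∀ ψ ∈ Ψ, ∀ d ∈ D, ψ d = 0) : Pp Md H := by
  classical
  obtain ⟨Φ, D, a⟩ := h
  obtain ⟨Ψ, E, b, c⟩ := h' D a.dis
  have h1 : ∀ φ ∈ Φ, ∀ d, ∀ e ∈ E, φ (d + e) = φ d := fun φ h d e he => by
    rw [map_add, a.van φ h e (b.sub e he), add_zero]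
  have h2 : ∀ φ ∈ Ψ, ∀ d ∈ D, ∀ e, φ (d + e) = φ e := fun φ h d hd e => by
    rw [map_add, c φ h d hd, zero_add]
  refine ⟨Φ ∪ Ψ, {x | ∃ p : G × G, p.1 ∈ D ∧ p.2 ∈ E ∧ p.1 + p.2 = x},
    fun φ h x hx => h.elim (fun h => a.van φ h x (hle hx)) fun h => b.van φ h x hx,
    fun g _ h => b.sep g (a.sep g trivial fun φ e => h φ (Or.inl e)) fun φ e => h φ (Or.inr e),
    fun _ _ => trivial, fun x hx e => ?_, fun g l hl => ?_, fun x hD F hF => ?_⟩
  · have : x ∈ closure D ⊔ closure E := (closure_le _).2 (by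
      rintro _ ⟨p, p1, p2, rfl⟩
      exact add_mem_sup (subset_closure p1) (subset_closure p2)) hx
    obtain ⟨y, hy, z, hz, rfl⟩ := mem_sup.1 this
    have h3 := a.dis y hy (by simpa using sub_mem (hle e) ((closure_le K).2 b.sub hz))
    rw [h3, zero_add] at e ⊢
    exact b.dis z hz e
  · obtain ⟨d, d1, d2⟩ := a.dns g (l.filter (· ∈ Φ)) (by simp)
    obtain ⟨e, e1, e2⟩ := b.dns g (l.filter (· ∈ Ψ)) (by simp)
    refine ⟨d + e, ⟨(d, e), d1, e1, rfl⟩, fun φ h => (hl φ h).elim (fun k => ?_) fun k => ?_⟩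
    · rw [h1 φ k d e e1]; exact d2 φ (by simp [h, k])
    · rw [h2 φ k d d1]; exact e2 φ (by simp [h, k])
  · choose p p2 using hD
    obtain ⟨e, e1, F1, e2, e3, e4⟩ := b.seq (fun n => (p n).2) (fun n => (p2 n).2.1) F hF
    obtain ⟨d, d1, F2, d2, d3, d4⟩ := a.seq (fun n => (p n).1) (fun n => (p2 _).1) F1 e2
    refine ⟨d + e, ⟨(d, e), d1, e1, rfl⟩, F2, d2, d3.trans e3,
      fun χ h => h.elim (fun k => ?_) fun k => ?_⟩
    · simpa only [← fun n => (p2 n).2.2, h1 χ k _ _ e1, fun n => h1 χ k (p n).1 _ (p2 n).2.1]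
        using d4 χ k
    · simpa only [← fun n => (p2 n).2.2, h2 χ k _ d1, fun n => h2 χ k _ (p2 n).1]
        using (e4 χ k).mono_left d3

theorem cyc_piece (md : Mode Md) {q : ℕ} (hq : 0 < q) (h1 : ∀ g, q • g ∈ H) {a : G}
    (h2 : q • a = 0) (ha : ∀ k : ℕ, k • a ∈ H → q ∣ k) (D : Set G)
    (dis : ∀ x ∈ closure D, x ∈ H ⊔ closure {a} → x = 0) :
    ∃ Ψ E, Nice Md H (H ⊔ closure {a}) Ψ E ∧ ∀ ψ ∈ Ψ, ∀ d ∈ D, ψ d = 0 := by
  have h3 : ∀ k : ℕ, k • a ∈ closure {a} := fun k =>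
    nsmul_mem (subset_closure (Set.mem_singleton a)) k
  obtain ⟨χ, c2, c3⟩ := exists_ext (H := H ⊔ closure D) (S := {a})
    (fun s hs k hk => by simpa [show s = a from hs] using hk) (fun _ => un q)
    (by
      rintro _ rfl k hk
      exact addOrderOf_dvd_iff_nsmul_eq_zero.1
        ((un_ord hq).symm ▸ ha k (cap le_sup_left dis (mem_sup_right (h3 k)) hk)))
  have h4 : ∀ j : ℤ, (q : ℤ) ∣ j → j • a = 0 := by
    rintro _ ⟨c, rfl⟩; rw [mul_comm, mul_smul, natCast_zsmul, h2, smul_zero]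
  have h5 : ∀ x ∈ H, χ x = 0 := fun x hx => c2 x (mem_sup_left hx)
  have h6 : χ a = un q := c3 a rfl
  refine ⟨{χ}, {x | ∃ k : ℕ, k < q ∧ k • a = x},
    ⟨by rintro _ rfl; exact h5, fun g hg e => ?_,
    by rintro _ ⟨k, -, rfl⟩; exact mem_sup_right (h3 k), fun x hx e => ?_,
    fun g l hl => ?_, fun x hD F hF => ?_⟩,
    by rintro _ rfl d hd; exact c2 d (mem_sup_right (subset_closure hd))⟩
  · obtain ⟨y, hy, z, hz, rfl⟩ := mem_sup.1 hg
    obtain ⟨j, rfl⟩ := mem_closure_singleton.1 hz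
    have : χ (y + j • a) = 0 := e χ rfl
    rw [map_add, h5 y hy, zero_add, map_zsmul, h6, ← addOrderOf_dvd_iff_zsmul_eq_zero,
      un_ord hq] at this
    rwa [h4 j this, add_zero]
  · obtain ⟨j, rfl⟩ := mem_closure_singleton.1
      ((closure_le (closure {a})).2 (by rintro _ ⟨k, -, rfl⟩; exact h3 k) hx)
    exact h4 j (Int.natCast_dvd.2 (ha _ (natAbs_mem.2 e)))
  · obtain ⟨j, j1, j2⟩ := exists_un hq ((map_nsmul χ q g).symm.trans (h5 _ (h1 g)))
    refine ⟨j • a, ⟨j, j1, rfl⟩, fun φ h => ?_⟩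
    rw [show φ = χ from hl φ h, map_nsmul, h6, j2]
  · choose k k1 k2 using hD
    obtain ⟨c, c4, F', f1, f2, c5⟩ := md q k k1 F hF
    exact ⟨_, ⟨c, c4, rfl⟩, F', f1, f2, fun ψ _ =>
      tendsto_const_nhds.congr' (c5.mono fun n e => by simp only [← k2 n, e])⟩

theorem big_piece {Λ I : Type u} (hΛ : ℵ₀ < #Λ) (hI : #Λ ≤ #I) (sp : Spc Md I Λ) (hle : H ≤ K)
    (y : Set I → G) (cov : ∀ h ∈ K, ∃ c, h - y c ∈ H) {q : ℕ} (hq : q ≠ 1)
    (h1 : ∀ g, q • g ∈ H) (e : Λ → G) (inj : Injective e) (h2 : ∀ a, e a ∈ K)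
    (h3 : ∀ a, q • e a = 0) (h4 : Ind H (fun _ k => q ∣ k) (Set.range e)) (D : Set G)
    (dis : ∀ x ∈ closure D, x ∈ K → x = 0) :
    ∃ Ψ E, Nice Md H K Ψ E ∧ ∀ ψ ∈ Ψ, ∀ d ∈ D, ψ d = 0 := by
  classical
  have : Infinite Λ := infinite_iff.2 hΛ.le
  have : Infinite I := infinite_iff.2 (hΛ.le.trans hI)
  obtain ⟨Y, ⟨i⟩, off, dns, seq⟩ := sp
  have i2 := i.injective
  let E : Set G := {g | ∃ b, e (i b) = g}
  have E1 : Ind H (fun _ k => q ∣ k) E := h4.mono fun _ ⟨b, h⟩ => ⟨_, h⟩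
  have E2 : ∀ s ∈ E, ∀ k, k • s ∈ H ↔ q ∣ k := fun s hs k =>
    ⟨fun h => E1 s hs k (mem_sup_left h), by rintro ⟨c, rfl⟩; rw [mul_smul]; exact h1 _⟩
  have E3 : Ind H (fun s k => k • s ∈ H) E := fun s hs k hk => (E2 s hs k).2 (E1 s hs k hk)
  obtain ⟨S, S1, S2, S3, S4⟩ := exists_ind (H := H) (fun s k => k • s ∈ H)
    {a | a ∈ K ∧ a ∉ H} (fun _ _ _ => id) E
    (fun s hs => ⟨let ⟨b, h⟩ := hs; h ▸ h2 _, fun c =>
      hq (Nat.dvd_one.1 ((E2 s hs 1).1 (by rwa [one_smul])))⟩) E3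
  have : ∀ g, ∃ c, (∃ c, g - y c ∈ H) → g - y c ∈ H := fun g => by
    by_cases c : ∃ c, g - y c ∈ H
    · exact c.imp fun _ e _ => e
    · exact ⟨∅, fun e => (c e).elim⟩
  choose z z2 using this
  let o : G → I × Λ × ℕ → Bool := fun g j =>
    if j.2.2 = 0 then false else if j.2.2 = 1 then true else decide (j.1 ∈ z g)
  have : ∀ g, ∃ b, (∃ c : Y, e (i c) = g ∧ c.1 = b) ∨ (g ∉ E ∧ o g = b) := fun g => by
    by_cases c : g ∈ E
    exacts [let ⟨b, h⟩ := c; ⟨_, Or.inl ⟨b, h, rfl⟩⟩, ⟨_, Or.inr ⟨c, rfl⟩⟩]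
  choose κ k2 using this
  have k3 : ∀ b, κ (e (i b)) = b.1 := fun b => by
    rcases k2 (e (i b)) with ⟨c, c1, c2⟩ | c
    exacts [by rw [← c2, i2 (inj c1)], (c.1 ⟨b, rfl⟩).elim]
  have k4 : ∀ g ∉ E, κ g = o g := fun g h =>
    ((k2 g).resolve_left fun ⟨c, c1, _⟩ => h ⟨c, c1⟩).2.symm
  have k5 : ∀ g ∈ E, κ g ∈ Y := by rintro _ ⟨b, rfl⟩; rw [k3]; exact b.2
  have k6 : ∀ s ∈ E, ∀ t ∉ E, κ s ≠ κ t := fun s hs t ht c => by
    obtain ⟨ξ, h⟩ := off [κ s] (by simpa using k5 s hs)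
    simpa [c, k4 t ht, o] using h (κ s) (by simp) (Classical.arbitrary _) 1
  have k7 : ∀ s ∈ S, ∀ t ∈ S, κ s = κ t → s = t := fun s hs t ht c => by
    by_cases a : s ∈ E <;> by_cases b : t ∈ E
    · obtain ⟨a, rfl⟩ := a
      obtain ⟨b, rfl⟩ := b
      rw [k3, k3] at c
      rw [Subtype.ext c]
    · exact (k6 s a t b c).elim
    · exact (k6 t b s a c.symm).elim
    · have : z s = z t := Set.ext fun X => by
        simpa [k4 s a, k4 t b, o] using congrFun c (X, Classical.arbitrary _, 2)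
      refine S3.eq hs ht (k := 1) (by simpa using (S2 hs).2) ?_
      simpa [this] using sub_mem (z2 s (cov s (S2 hs).1)) (z2 t (cov t (S2 ht).1))
  obtain ⟨σ, s2⟩ : ∃ σ : I → ULift.{u} ℕ × List ((I × Λ × ℕ) × Bool), Surjective σ := by
    have hc := aleph0_le_mk I
    have : #(ULift.{u} ℕ × List ((I × Λ × ℕ) × Bool)) ≤ #I := by
      rw [← mul_def, mk_list_eq_mk]
      simp only [mk_uLift, mk_nat, lift_aleph0, mk_prod, lift_id, lift_uzero, mk_bool, lift_ofNat]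
      refine mul_le_of_le hc hc (mul_le_of_le hc (mul_le_of_le hc le_rfl
        (mul_le_of_le hc hI hc)) ?_)
      exact (nat_lt_aleph0 2).le.trans hc
    obtain ⟨f⟩ := this
    exact ⟨invFun f, invFun_surjective f.injective⟩
  obtain ⟨t, t4, t2, t3⟩ := exists_tq q
  let tl : (I × Λ × ℕ → Bool) → I × Λ → ℕ → Bool := fun w p n => w (p.1, p.2, n + 1)
  let f : I × Λ → G → UnitAddCircle := fun p s =>
    if κ s (p.1, p.2, 0) = true then t (tl (κ s) p)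
    else if (∀ c, c ∈ (σ p.1).2 → κ s c.1 = c.2) ∧
      ∀ k : ℕ, k • s ∈ H → k • un (σ p.1).1.down = 0 then un (σ p.1).1.down else 0
  have : ∀ p, ∃ φ : G →+ UnitAddCircle, (∀ x ∈ H ⊔ closure D, φ x = 0) ∧ ∀ s ∈ S, φ s = f p s :=
    fun p => exists_ext (fun s hs k hk => by
      rw [sup_right_comm] at hk
      have a : H ⊔ closure (S \ {s}) ≤ K :=
        sup_le hle ((closure_le K).2 fun x hx => (S2 hx.1).1)
      exact mem_sup_left (S3 s hs k (cap a dis (nsmul_mem (S2 hs).1 k) hk))) (f p)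
      fun s hs k hk => by
        have a := cap hle dis (nsmul_mem (S2 hs).1 k) hk
        simp only [f]
        split_ifs with b c
        · obtain ⟨d, rfl⟩ := (E2 s (by_contra fun c => by simp [k4 s c, o] at b) k).1 a
          rw [mul_comm, mul_smul, t2, smul_zero]
        · exact c.2 k a
        · exact smul_zero k
  choose χ c1 c2 using this
  have c3 : ∀ p, ∀ x ∈ H, χ p x = 0 := fun p x hx => c1 p x (mem_sup_left hx)
  refine ⟨Set.range χ, E, ⟨by rintro _ ⟨p, rfl⟩; exact c3 p, fun g hg h => by_contra fun hn => ?_,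
    fun d hd => (S2 (S1 hd)).1, fun x hx h => ?_, fun g l hl => ?_, fun x hD F hF => ?_⟩,
    by rintro _ ⟨p, rfl⟩ d hd; exact c1 p d (mem_sup_right (subset_closure hd))⟩
  · obtain ⟨k, a1, a2⟩ : ∃ k : ℕ, k • g ∉ H ∧ k • g ∈ H ⊔ closure S :=
      (S4 g ⟨hg, hn⟩).elim (fun a => ⟨1, by rwa [one_smul], by
        rw [one_smul]; exact mem_sup_right (subset_closure a)⟩) id
    obtain ⟨F, a3, s, a4, j, a5, a6, a7⟩ := sep_elt a2 a1
    obtain ⟨n, a8, a9⟩ := exists_ord a6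
    have : ∀ r, ∃ c, r ∈ F → κ r c ≠ κ s c := fun r => by
      by_contra c
      push Not at c
      exact a5 (k7 r (a3 (c (Classical.arbitrary _)).1) s a4 (funext fun j => (c j).2) ▸
        (c (Classical.arbitrary _)).1)
    choose c hc using this
    obtain ⟨X, hX⟩ := s2 (⟨n⟩, F.toList.map fun r => (c r, κ s (c r)))
    obtain ⟨ξ, hξ⟩ := off (((s :: F.toList).filter (· ∈ E)).map κ)
      (List.forall_mem_map.2 fun r hr => k5 r (by simpa using (List.mem_filter.1 hr).2))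
    have b1 : ∀ r ∈ s :: F.toList, ¬ κ r (X, ξ, 0) = true := fun r hr => by
      by_cases b : r ∈ E
      · simp [hξ _ (List.mem_map_of_mem (List.mem_filter.2 ⟨hr, by simpa using b⟩))]
      · simp [k4 r b, o]
    have b2 : χ (X, ξ) s = un n := (c2 _ s a4).trans (by
      simp only [f, hX]
      rw [if_neg (b1 s List.mem_cons_self), if_pos ⟨List.forall_mem_map.2 fun _ _ => rfl, a8⟩])
    have b3 : H ⊔ closure (F : Set G) ≤ (χ (X, ξ)).ker :=
      sup_le (c3 _) ((closure_le _).2 fun r hr => (c2 _ r (a3 hr)).trans (by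
        have := Finset.mem_toList.2 (Finset.mem_coe.1 hr)
        simp only [f, hX]
        rw [if_neg (b1 r (List.mem_cons_of_mem _ this)),
          if_neg fun b => hc r hr (b.1 _ (List.mem_map_of_mem this))]))
    have b4 : χ (X, ξ) g = 0 := h _ ⟨_, rfl⟩
    simpa [b2, b4, a9] using b3 a7
  · refine ind_graph E3 id (fun s hs k hk => ?_) (x, x) ((closure_le ((closure _).comap
      ((AddMonoidHom.id G).prod (AddMonoidHom.id G)))).2
      (fun s hs => subset_closure (k := _ '' _) ⟨s, hs, rfl⟩) hx) h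
    obtain ⟨d, rfl⟩ := (E2 s hs k).1 hk
    obtain ⟨b, rfl⟩ := hs
    rw [mul_comm, mul_smul, id, h3, smul_zero]
  · choose b hb using fun p => t3 (χ p g) ((map_nsmul (χ p) q g).symm.trans (c3 p _ (h1 g)))
    choose p hp using hl
    obtain ⟨w, w1, w2⟩ := dns (l.pmap p fun _ h => h) fun p n =>
      if n = 0 then true else b p (n - 1)
    refine ⟨e (i ⟨w, w1⟩), ⟨_, rfl⟩, fun φ h => ?_⟩
    have w3 := w2 _ (List.mem_pmap.2 ⟨φ, h, rfl⟩)
    rw [← hp φ h, c2 _ _ (S1 ⟨_, rfl⟩)]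
    simp only [f, k3]
    rw [if_pos (show w ((p φ h).1, (p φ h).2, 0) = true from w3 0),
      show tl w (p φ h) = b (p φ h) from funext fun n => w3 (n + 1)]
    exact hb _
  · obtain ⟨w, w1, F', f1, f2, f3⟩ := seq (fun n => κ (x n)) (fun n => k5 _ (hD n)) F hF
    have w2 : e (i ⟨w, w1⟩) ∈ E := ⟨_, rfl⟩
    refine ⟨_, w2, F', f1, f2, ?_⟩
    rintro _ ⟨p, rfl⟩
    simp only [c2 p _ (S1 w2), fun n => c2 p _ (S1 (hD n)), f, k3, E2 _ w2, fun n => E2 _ (hD n)]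
    by_cases c : w (p.1, p.2, 0) = true
    · rw [if_pos c]
      have : Tendsto (fun n => tl (κ (x n)) p) F' (𝓝 (tl w p)) :=
        tendsto_pi_nhds.2 fun n => tendsto_const_nhds.congr'
          ((f3 (p.1, p.2, n + 1)).mono fun _ a => a.symm)
      exact ((t4.tendsto _).comp this).congr'
        ((f3 (p.1, p.2, 0)).mono fun n a => (if_pos (a.trans c)).symm)
    · refine tendsto_const_nhds.congr' (((f3 (p.1, p.2, 0)).and
        ((eventually_all_finite (σ p.1).2.finite_toSet).2 fun j _ => f3 j.1)).mono fun n a => ?_)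
      simp only [a.1, if_neg c]
      exact if_congr (and_congr_left fun _ => forall₂_congr fun j b => by rw [a.2 j b]) rfl rfl

theorem big_step {Λ I : Type u} (hΛ : ℵ₀ < #Λ) (hI : #Λ ≤ #I) (sp : Spc Md I Λ) (hp : Pure H)
    (ha : Adm Md H) {q : ℕ} (hq : q ≠ 1) (h1 : ∀ g, q • g ∈ H) (e : Λ → G) (inj : Injective e)
    (h3 : ∀ a, q • e a = 0) (h4 : Ind H (fun _ k => q ∣ k) (Set.range e)) {m : ℕ} (hm : 0 < m)
    (h5 : #(Qt H m) ≤ #(Set I))
    (ih : ∀ K : AddSubgroup G, Pure K → Adm Md K → (∀ g, m • g ∈ K) → Pp Md K) :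
    Pp Md H := by
  have : Infinite Λ := infinite_iff.2 hΛ.le
  have : Infinite I := infinite_iff.2 (hΛ.le.trans hI)
  have hc := aleph0_le_mk (Set I)
  have : ∀ k : ℕ, ∃ y : Set I → G, #(Qt H k) ≤ #(Set I) → ∀ g, ∃ c, k • g - y c ∈ H := fun k => by
    by_cases c : #(Qt H k) ≤ #(Set I)
    · exact (exists_cov c).imp fun _ e _ => e
    · exact ⟨0, fun e => (c e).elim⟩
  choose Y y2 using this
  obtain ⟨x, hx⟩ := cover (α := Set I) (s := Set.range e ∪ ⋃ k, Set.range (Y k))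
    ⟨_, Or.inl ⟨Classical.arbitrary _, rfl⟩⟩ ((mk_union_le _ _).trans (add_le_of_le hc
      (mk_range_le.trans (hI.trans (by rw [mk_set]; exact (cantor _).le)))
      (mk_nU hc fun _ => mk_range_le)))
  obtain ⟨K, k1, k2, k3, y, k5⟩ := exists_big hp x
  have k6 : ∀ m, 0 < m → #(Qt H m) ≤ #(Set I) → ∀ g, m • g ∈ K := fun m _ h g => by
    obtain ⟨c, hc⟩ := y2 m h g
    obtain ⟨d, hd⟩ := hx (Y m c) (Or.inr (Set.mem_iUnion.2 ⟨m, c, rfl⟩))
    simpa [hd] using add_mem (k1 hc) (k3 d)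
  refine (ih K k2 (ha.trans k1 y k5 fun m a b => Qt_fin (k6 m a b)) (k6 m hm h5)).glue k1
    (big_piece hΛ hI sp k1 y k5 hq h1 e inj (fun a => ?_) h3 h4)
  obtain ⟨d, hd⟩ := hx (e a) (Or.inl ⟨a, rfl⟩)
  exact hd ▸ k3 d

theorem bdd_step (md : Mode Md) (q : ℕ) (hq : 0 < q) : ∀ H : AddSubgroup G, Pure H →
    Adm Md H → (∀ g, q • g ∈ H) → Pp Md H := by
  induction q using Nat.strong_induction_on with | _ q ih
  intro H hp ha h1
  by_cases q1 : q = 1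
  · exact Pp.top (by simpa [q1] using h1)
  by_cases c : ∃ m, 0 < m ∧ m < q ∧ (Qt H m).Finite
  · obtain ⟨m, m1, m2, m3⟩ := c
    obtain ⟨l, hl⟩ := Qt_list m3
    clear m3
    induction hn : {x | x ∈ l ∧ x ∉ H}.ncard using Nat.strong_induction_on generalizing H with
    | _ n ih'
    rcases exists_exp hq h1 with ⟨k, k1, k2, k3⟩ | ⟨a, h2⟩
    · exact ih k k2 k1 H hp ha k3
    obtain ⟨b, b1, b2⟩ := hp q a (h1 a)
    have h3 : ∀ k : ℕ, k • (a - b) ∈ H → q ∣ k := fun k hk =>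
      h2 k (by simpa [smul_sub] using add_mem hk (nsmul_mem b1 k))
    have h4 : q • (a - b) = 0 := by rw [smul_sub, b2, sub_self]
    generalize a - b = a at h3 h4
    refine Pp.glue le_sup_left ?_ (cyc_piece md hq h1 h4 h3)
    refine ih' {x | x ∈ l ∧ x ∉ H ⊔ closure {a}}.ncard ((Set.ncard_lt_ncard
      (t := {x | x ∈ l ∧ x ∉ H}) ⟨fun x h => ⟨h.1, fun e => h.2 (mem_sup_left e)⟩, fun h => ?_⟩
      (l.finite_toSet.subset fun _ h => h.1)).trans_eq hn) _ (hp.cyclic hq h1 h3)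
      (ha.trans le_sup_left (fun k : ULift.{u} ℕ => k.down • a) (fun x hx => ?_) fun k k1 k2 => ?_)
      (fun g => mem_sup_left (h1 g)) (fun g => (hl g).imp fun x h => ⟨h.1, mem_sup_left h.2⟩) rfl
    · obtain ⟨x, x1, x2⟩ := hl a
      refine (h ⟨x1, fun e => (Nat.le_of_dvd m1 (h3 m (by simpa using add_mem x2 e))).not_gt m2⟩).2 ?_
      simpa using sub_mem (mem_sup_right (nsmul_mem (subset_closure (Set.mem_singleton a)) m))
        (mem_sup_left x2)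
    · obtain ⟨y, hy, z, hz, rfl⟩ := mem_sup.1 hx
      obtain ⟨j, rfl⟩ := mem_closure_singleton.1 hz
      refine ⟨⟨(j % q).toNat⟩, ?_⟩
      rw [← natCast_zsmul, Int.toNat_of_nonneg (Int.emod_nonneg _ (by omega)), add_sub_assoc,
        ← sub_smul, Int.emod_def, sub_sub_cancel, mul_comm, mul_smul, natCast_zsmul, h4, smul_zero,
        add_zero]
      exact hy
    · have := (ha k k1).resolve_right fun ⟨_, _, e1, _, _, e2, _⟩ =>
        (e1.trans_le (e2.trans k2)).ne' (by simp)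
      exact lt_aleph0_iff_set_finite.1 ((Qt_mono le_sup_left).trans_lt this.lt_aleph0)
  obtain ⟨S, -, S2, S3, S4⟩ := exists_ind (H := H) (fun _ k => q ∣ k) {a | q • a = 0}
    (by rintro a - _ ⟨c, rfl⟩; rw [mul_smul]; exact h1 _) ∅ (fun _ => False.elim)
    fun _ => False.elim
  obtain ⟨m, m1, m2, m3⟩ := (exists_exp (H := H ⊔ closure S) hq
    fun g => mem_sup_left (h1 g)).resolve_right fun ⟨a, h⟩ => by
      obtain ⟨b, b1, b2⟩ := hp q a (h1 a)
      have h3 : ∀ k : ℕ, k • (a - b) ∈ H ⊔ closure S → q ∣ k := fun k hk =>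
        h k (by simpa [smul_sub] using add_mem hk (mem_sup_left (nsmul_mem b1 k)))
      rcases S4 (a - b) (show q • _ = 0 by rw [smul_sub, b2, sub_self]) with e | ⟨k, e, e'⟩
      · exact q1 (Nat.dvd_one.1 (h3 1 (by rw [one_smul]; exact mem_sup_right (subset_closure e))))
      · exact e (h3 k e')
  obtain ⟨Λ, I, hΛ, hI, sp, l1, l2⟩ := (ha m m1).resolve_left fun e => c ⟨m, m1, m2, e⟩
  obtain ⟨e⟩ : #Λ ≤ #S := by
    refine l1.trans ?_
    have : #(Qt H m) ≤ #(closure S) := Qt_le Subtype.val fun g => by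
      obtain ⟨a, a1, b, b1, e⟩ := mem_sup.1 (m3 g)
      exact ⟨⟨b, b1⟩, by simpa [← e] using a1⟩
    rcases le_max_iff.1 (this.trans (mk_cl_le (le_max_left ℵ₀ #S) (le_max_right _ _))) with d | d
    · exact ((hΛ.trans_le l1).not_ge d).elim
    · exact d
  exact big_step hΛ hI sp hp ha q1 h1 (fun a => (e a).1) (Subtype.val_injective.comp e.injective)
    (fun a => S2 (e a).2) (S3.mono fun _ ⟨a, h⟩ => h ▸ (e a).2) m1 l2 (ih m m2 m1)

end Pool.Agent.Lib.MP_fe6d4f_gt.V
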