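import Pool.Agent.Lib.MP_fe6d4f_gt.V.Bog
import Pool.Agent.Lib.MP_fe6d4f_gt.V.Char

/-!
For torsion groups both questions are equivalent to a statement on sizes of subsets of Cantor
cubes that realise every countable pattern.
-/

namespace Pool.Agent.Lib.MP_fe6d4f_gt.V

open Function Filter Topology Cardinal

universe u

/-- Sets realising all countable patterns on a strong limit cardinal are large. -/
def Mp : Prop :=
  ∀ (I : Type u) (Y : Set (I → ZMod 2)), (#I).IsStrongLimit →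
    (∀ J : Set I, J.Countable → ∀ z : I → ZMod 2, ∃ y ∈ Y, ∀ j ∈ J, y j = z j) → #I ^ ℵ₀ ≤ #Y

theorem Feeb.image {X Y : Type u} [TopologicalSpace X] [TopologicalSpace Y] {f : X → Y}
    (hf : Continuous f) (hs : Surjective f) (h : Feeb X) : Feeb Y := fun U hU => by
  obtain ⟨x, hx⟩ := h (fun n => f ⁻¹' U n) fun n => ⟨(hU n).1.preimage hf, (hU n).2.preimage hs⟩
  refine ⟨f x, fun W hW N => ?_⟩
  obtain ⟨n, n1, z, n2⟩ := hx _ (hf.continuousAt.preimage_mem_nhds hW) N
  exact ⟨n, n1, f z, n2⟩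

theorem Feeb.bdd {X : Type u} [TopologicalSpace X] (h : Feeb X) (f : X → ℝ) (hf : Continuous f) :
    ∃ C, ∀ x, |f x| ≤ C := by
  by_contra c
  push Not at c
  obtain ⟨y, hy⟩ := h (fun n => {x | (n : ℝ) < |f x|})
    fun n => ⟨isOpen_lt continuous_const hf.abs, c n⟩
  obtain ⟨N, hN⟩ := exists_nat_gt (|f y| + 1)
  obtain ⟨n, n1, z, z1, z2⟩ := hy {x | |f x| < |f y| + 1}
    ((isOpen_lt hf.abs continuous_const).mem_nhds (lt_add_one |f y|)) N
  have : (N : ℝ) ≤ n := by exact_mod_cast n1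
  simp only [Set.mem_setOf_eq] at z1 z2
  linarith

theorem surj_pi {K V ι : Type*} [Field K] [AddCommGroup V] [Module K V] [Fintype ι]
    {χ : ι → Module.Dual K V} (h : LinearIndependent K χ) : Surjective (LinearMap.pi χ) := by
  classical
  refine LinearMap.dualMap_injective_iff.1 ((injective_iff_map_eq_zero _).2 fun l e => ?_)
  have := Fintype.linearIndependent_iff.1 h (fun i => l fun j => if i = j then 1 else 0) (by
    ext g
    have k : l (LinearMap.pi χ g) = 0 := DFunLike.congr_fun e g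
    rw [LinearMap.pi_apply_eq_sum_univ] at k
    simpa [mul_comm] using k)
  ext v
  rw [LinearMap.comp_apply, LinearMap.pi_apply_eq_sum_univ]
  simp [this]

theorem pow_le_prime (hM : Mp.{u}) (p : ℕ) [Fact p.Prime] (G : Type u) [AddCommGroup G]
    [Module (ZMod p) G] [TopologicalSpace G] [IsTopologicalAddGroup G] [T2Space G] (h : Feeb G)
    {σ : Cardinal.{u}} (hσ : σ.IsStrongLimit) (h0 : ℵ₀ < σ) (hG : σ ≤ #G) : σ ^ ℵ₀ ≤ #G := by
  classical
  have mo : ∀ {f : Module.Dual (ZMod p) G} {N : AddSubgroup G}, IsOpen (N : Set G) →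
      (∀ g ∈ N, f g = 0) → IsOpen (LinearMap.ker f : Set G) := fun {f N} a b =>
    AddSubgroup.isOpen_mono (H₁ := N) (H₂ := (LinearMap.ker f).toAddSubgroup) b a
  let Φ : Submodule (ZMod p) (Module.Dual (ZMod p) G) :=
    { carrier := {f | IsOpen (LinearMap.ker f : Set G)}
      add_mem' := fun {f g} a b => mo
        (N := (LinearMap.ker f).toAddSubgroup ⊓ (LinearMap.ker g).toAddSubgroup) (a.inter b)
        fun x hx => by rw [LinearMap.add_apply, hx.1, hx.2, add_zero]
      zero_mem' := mo (N := ⊤) isOpen_univ fun _ _ => rfl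
      smul_mem' := fun c f a => mo (N := (LinearMap.ker f).toAddSubgroup) a
        fun x hx => by rw [LinearMap.smul_apply, hx, smul_zero] }
  have h1 : σ ≤ #Φ := by
    by_contra c
    have a : #G ≤ #(Φ → ZMod p) := mk_le_of_injective (f := fun g f => f.1 g) fun a b e => by
      by_contra d
      obtain ⟨f, f1, f2⟩ := h.exists_lin (p := p) (sub_ne_zero.2 d)
      exact f2 (by rw [map_sub, sub_eq_zero]; exact congrFun e ⟨f, f1⟩)
    have b : #(Φ → ZMod p) ≤ 2 ^ (ℵ₀ * #Φ) := by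
      rw [power_mul, mk_arrow, lift_uzero]
      refine power_le_power_right (le_trans ?_ (cantor _).le)
      simp
    exact (hσ.two_power_lt (mul_lt_of_lt h0.le h0 (not_le.1 c))).not_ge (hG.trans (a.trans b))
  have : Infinite Φ := infinite_iff.2 (h0.le.trans h1)
  obtain ⟨s, s1, s2⟩ := exists_set_linearIndependent_of_isDomain (ZMod p) Φ
  obtain ⟨t, t1, t2⟩ := le_mk_iff_exists_subset.1
    (h1.trans ((Sp.rank_eq_card (F := ZMod p) (V := Φ)).symm.trans s1.symm).le)
  clear h1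
  rw [← t2] at hσ ⊢
  let χ : t → Module.Dual (ZMod p) G := fun i => i.1.1
  have li : LinearIndependent (ZMod p) χ :=
    LinearIndependent.map' (s2.mono t1) Φ.subtype Φ.ker_subtype
  have op : ∀ i c, IsOpen {g | χ i g = c} := fun i c => isOpen_iff_mem_nhds.2 fun g hg =>
    mem_of_superset ((IsOpen.preimage (f := fun z => z - g) (by fun_prop) i.1.2).mem_nhds
      (by simp)) fun z hz => (sub_eq_zero.1 ((map_sub (χ i) z g).symm.trans hz)).trans hg
  refine (hM t (Set.range fun g i => if χ i g = 0 then 0 else 1) hσ fun J hJ z => ?_).trans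
    mk_range_le
  have : Nonempty t := mk_ne_zero_iff.1 hσ.ne_zero
  obtain ⟨j, hj⟩ := (hJ.insert (Classical.arbitrary t)).exists_eq_range (Set.insert_nonempty _ _)
  let w : t → ZMod p := fun i => if z i = 0 then 0 else 1
  obtain ⟨y, hy⟩ := h (fun n => ⋂ k ∈ Finset.range n, {g | χ (j k) g = w (j k)}) fun n =>
    ⟨isOpen_biInter_finset fun k _ => op _ _, by
      obtain ⟨g, hg⟩ := surj_pi (li.comp (fun i : (Finset.range n).image j => i.1)
        Subtype.val_injective) fun i => w i.1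
      exact ⟨g, Set.mem_iInter₂.2 fun k hk =>
        congrFun hg ⟨j k, Finset.mem_image_of_mem j hk⟩⟩⟩
  refine ⟨_, ⟨y, rfl⟩, fun i hi => ?_⟩
  obtain ⟨k, rfl⟩ : i ∈ Set.range j := hj ▸ Or.inr hi
  obtain ⟨n, n1, g, g1, g2⟩ := hy _ ((op (j k) (χ (j k) y)).mem_nhds rfl) (k + 1)
  have e : χ (j k) y = w (j k) :=
    (show χ (j k) g = _ from g1).symm.trans (Set.mem_iInter₂.1 g2 k (Finset.mem_range.2 n1))
  simp only [e, w]
  by_cases c : z (j k) = 0
  · simp [c]
  · rw [if_neg c, if_neg one_ne_zero]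
    revert c
    generalize z (j k) = c
    revert c
    decide

theorem pow_le_bdd (hM : Mp.{u}) {σ : Cardinal.{u}} (hσ : σ.IsStrongLimit) (h0 : ℵ₀ < σ) (q : ℕ) :
    0 < q → ∀ (G : Type u) [AddCommGroup G] [TopologicalSpace G] [IsTopologicalAddGroup G]
      [T2Space G], Feeb G → (∀ g : G, q • g = 0) → σ ≤ #G → σ ^ ℵ₀ ≤ #G := by
  induction q using Nat.strong_induction_on with | _ q ih
  intro hq G _ _ _ _ h h1 hG
  by_cases q1 : q = 1
  · have : Subsingleton G := ⟨fun a b => by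
      have := h1 a
      have := h1 b
      simp_all⟩
    exact (h0.not_ge (hG.trans mk_le_aleph0)).elim
  obtain ⟨p, p1, r, rfl⟩ := Nat.exists_prime_and_dvd q1
  have := Fact.mk p1
  let φ := nsmulAddMonoidHom (α := G) p
  by_cases c : σ ≤ #φ.range
  · refine (ih r ?_ (Nat.pos_of_mul_pos_left hq) φ.range (h.image (f := φ.rangeRestrict)
      ((continuous_nsmul p).subtype_mk _) φ.rangeRestrict_surjective) ?_ c).trans (mk_subtype_le _)
    · exact lt_mul_of_one_lt_left (Nat.pos_of_mul_pos_left hq) p1.one_lt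
    · rintro ⟨_, g, rfl⟩
      exact Subtype.ext (by simpa [φ, smul_smul, mul_comm] using h1 g)
  let C := φ.range.topologicalClosure
  have c1 : #C < σ := (mk_closure_le (φ.range : Set G)).trans_lt
    (hσ.two_power_lt (hσ.two_power_lt (not_le.1 c)))
  have : IsClosed (C : Set G) := φ.range.isClosed_topologicalClosure
  have c2 : σ ≤ #(G ⧸ C) := by
    by_contra d
    have := mk_congr (AddSubgroup.addGroupEquivQuotientProdAddSubgroup (s := C))
    rw [← mul_def] at this
    exact (mul_lt_of_lt h0.le (not_le.1 d) c1).not_ge (hG.trans this.le)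
  let _ : Module (ZMod p) (G ⧸ C) := AddCommGroup.zmodModule fun x =>
    QuotientAddGroup.induction_on x fun g => (QuotientAddGroup.eq_zero_iff _).2
      (φ.range.le_topologicalClosure ⟨g, rfl⟩)
  exact (pow_le_prime hM p (G ⧸ C) (h.image QuotientAddGroup.continuous_mk
    QuotientAddGroup.mk_surjective) hσ h0 c2).trans mk_quotient_le

theorem ssp_of_Mp (hM : Mp.{u}) (G : Type u) [AddCommGroup G]
    (ht : ∀ g : G, ∃ k : ℕ, 0 < k ∧ k • g = 0)
    (hp : ∃ τ : TopologicalSpace G, IsTopologicalAddGroup G ∧ T2Space G ∧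
      ∀ f : G → ℝ, Continuous f → ∃ C, ∀ x, |f x| ≤ C) :
    ∃ τ : TopologicalSpace G, IsTopologicalAddGroup G ∧ T2Space G ∧ Sp.WinsSsp G τ := by
  obtain ⟨τ, a, b, c⟩ := hp
  have h := feeb_grp c
  have r : ¬ 𝔠 ≤ Module.rank ℤ G := by
    rw [(rank_eq_zero_iff (R := ℤ)).2 fun g =>
      let ⟨k, a, b⟩ := ht g; ⟨(k : ℤ), by omega, by simpa using b⟩]
    exact continuum_pos.not_ge
  obtain ⟨q, q1, q2⟩ := h.rank.resolve_right r
  refine ssp_of_crit (fun e => (r e).elim)
    ⟨fun m _ => or_iff_not_imp_left.2 fun d => ?_, Or.inl ⟨q, q1, q2⟩⟩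
  let φ := nsmulAddMonoidHom (α := G) m
  have : Infinite φ.range := Set.infinite_coe_iff.2 d
  refine Sp.cond_of (aleph0_le_mk φ.range) fun σ x y => ?_
  rcases x.aleph0_le.eq_or_lt with e | e
  · rw [← e, aleph0_power_aleph0]
    exact (h.cont_le fun f => d ((fin_Qt_bot m).1 f)).trans (mk_Qt_bot m).le
  · exact pow_le_bdd hM x e q q1 φ.range (h.image (f := φ.rangeRestrict)
      ((continuous_nsmul m).subtype_mk _) φ.rangeRestrict_surjective)
      (fun g => Subtype.ext (q2 g.1)) y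

theorem feeb_dense {I : Type u} (A : Set (I → ZMod 2))
    (hA : ∀ J : Set I, J.Countable → ∀ z : I → ZMod 2, ∃ y ∈ A, ∀ j ∈ J, y j = z j) : Feeb A := by
  classical
  have bs : ∀ (g : A) (W : Set A), W ∈ 𝓝 g →
      ∃ F : Finset I, ∀ y : A, (∀ i ∈ F, y.1 i = g.1 i) → y ∈ W := fun g W hW => by
    obtain ⟨t, t1, t2, t3⟩ := mem_nhds_iff.1 hW
    obtain ⟨t, t4, rfl⟩ := t2
    obtain ⟨F, u, a, b⟩ := isOpen_pi_iff.1 t4 _ t3
    exact ⟨F, fun y hy => t1 (b fun i hi => hy i hi ▸ (a i hi).2)⟩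
  intro U hU
  choose g hg using fun n => (hU n).2
  choose F hF using fun n => bs (g n) (U n) ((hU n).1.mem_nhds (hg n))
  have : ∀ i, ∃ c, ∀ᶠ n in hyperfilter ℕ, (g n).1 i = c := fun i => by
    obtain ⟨c, hc⟩ := Ultrafilter.eq_pure_of_finite ((hyperfilter ℕ).map fun n => (g n).1 i)
    exact ⟨c, show {c} ∈ (hyperfilter ℕ).map fun n => (g n).1 i from hc ▸ rfl⟩
  choose z hz using this
  obtain ⟨y, y1, y2⟩ := hA (⋃ n, F n) (Set.countable_iUnion fun n => (F n).countable_toSet) z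
  refine ⟨⟨y, y1⟩, fun W hW N => ?_⟩
  obtain ⟨E, hE⟩ := bs _ W hW
  obtain ⟨n, n1, n2⟩ := (((eventually_ge_atTop N).filter_mono Nat.hyperfilter_le_atTop).and
    ((eventually_all_finset E).2 fun i _ => hz i)).exists
  obtain ⟨x, x1, x2⟩ := hA (F n ∪ E) ((F n).countable_toSet.union E.countable_toSet)
    fun i => if i ∈ F n then (g n).1 i else y i
  refine ⟨n, n1, ⟨x, x1⟩, hE _ fun i hi => (x2 i (Or.inr hi)).trans ?_,
    hF n _ fun i hi => (x2 i (Or.inl hi)).trans (if_pos hi)⟩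
  split_ifs with c
  · exact (n2 i hi).trans (y2 i (Set.mem_iUnion.2 ⟨n, c⟩)).symm
  · rfl

theorem Mp_of_sp (h : ∀ (G : Type u) [AddCommGroup G], (∀ g : G, 2 • g = 0) →
    (∃ τ : TopologicalSpace G, IsTopologicalAddGroup G ∧ T2Space G ∧
      ∀ f : G → ℝ, Continuous f → ∃ C, ∀ x, |f x| ≤ C) →
    ∃ τ : TopologicalSpace G, IsTopologicalAddGroup G ∧ T2Space G ∧ Sp.WinsSp G τ) : Mp.{u} := by
  classical
  intro I Y hI hY
  have h1 : #I ≤ #Y := by
    by_contra c
    refine (hI.two_power_lt (not_le.1 c)).not_ge ?_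
    rw [← mk_set]
    refine mk_le_of_injective (f := fun i => {y : Y | y.1 i = 0}) fun i j e => by_contra fun d => ?_
    obtain ⟨y, y1, y2⟩ := hY {i, j} (Set.toFinite _).countable fun k => if k = i then 0 else 1
    have a : y i = 0 := by simpa using y2 i (by simp)
    have b : y j = 0 := (Set.ext_iff.1 e ⟨y, y1⟩).1 a
    simpa [b, Ne.symm d] using y2 j (by simp)
  have h2 : #(closure Y) ≤ #Y := mk_cl_le (hI.aleph0_le.trans h1) le_rfl
  have h3 : #I ≤ #(closure Y) := h1.trans (mk_le_mk_of_subset AddSubgroup.subset_closure)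
  have : Infinite (closure Y) := infinite_iff.2 (hI.aleph0_le.trans h3)
  obtain ⟨τ, a, b, c⟩ := h (closure Y)
    (fun g => Subtype.ext (funext fun i => by simp [two_nsmul, CharTwo.add_self_eq_zero]))
    ⟨inferInstance, inferInstance, inferInstance, (feeb_dense (closure Y : Set _) fun J hJ z =>
      (hY J hJ z).imp fun _ e => ⟨AddSubgroup.subset_closure e.1, e.2⟩).bdd⟩
  exact (Sp.pow_le (τ := τ) c hI h3).trans h2

end Pool.Agent.Lib.MP_fe6d4f_gt.V
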