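import Pool.Agent.Lib.MP_fe6d4f_gt.V.Alg

/-!
Consequences of pseudocompactness for the sizes of an abelian group.
-/

namespace Pool.Agent.Lib.MP_fe6d4f_gt.V

open Function Filter Topology AddSubgroup Cardinal

universe u

/-- Every sequence of nonempty open sets accumulates somewhere. -/
def Feeb (X : Type u) [TopologicalSpace X] : Prop :=
  ∀ U : ℕ → Set X, (∀ n, IsOpen (U n) ∧ (U n).Nonempty) →
    ∃ y, ∀ W ∈ 𝓝 y, ∀ N, ∃ n ≥ N, (W ∩ U n).Nonempty

section Space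

variable {X : Type u} [TopologicalSpace X]

theorem feeb_of [CompletelyRegularSpace X]
    (h : ∀ f : X → ℝ, Continuous f → ∃ C, ∀ x, |f x| ≤ C) : Feeb X := by
  intro U hU
  by_contra c
  push Not at c
  have lf : LocallyFinite U := fun y => by
    obtain ⟨W, w1, N, w2⟩ := c y
    refine ⟨W, w1, (Set.finite_lt_nat N).subset fun n hn => ?_⟩
    by_contra d
    rw [Set.mem_setOf_eq, Set.inter_comm, w2 n (not_lt.1 d)] at hn
    exact Set.not_nonempty_empty hn
  choose x hx using fun n => (hU n).2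
  choose f f1 f2 f3 using fun n => CompletelyRegularSpace.completely_regular (x n) (U n)ᶜ
    (hU n).1.isClosed_compl (fun e => e (hx n))
  let g : ℕ → X → ℝ := fun n y => n * (1 - (f n y : ℝ))
  have g0 : ∀ n y, 0 ≤ g n y := fun n y =>
    mul_nonneg n.cast_nonneg (sub_nonneg.2 (f n y).2.2)
  have lg : LocallyFinite fun n => support (g n) := lf.subset fun n y hy => by
    by_contra d
    exact hy (by simp [g, f3 n d])
  obtain ⟨C, hC⟩ := h (fun y => ∑ᶠ n, g n y) (continuous_finsum (fun n => by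
    have := f1 n
    fun_prop) lg)
  obtain ⟨n, hn⟩ := exists_nat_gt C
  have := single_le_finsum n (f := fun m => g m (x n)) (lg.point_finite (x n)) fun m => g0 m _
  have e : g n (x n) = n := by simp [g, f2 n]
  linarith [le_abs_self (∑ᶠ m, g m (x n)), hC (x n)]

theorem Feeb.tree [RegularSpace X] [Nonempty X] (h : Feeb X) (P : ℕ → X → X → Prop)
    (hP : ∀ n U, IsOpen U → U.Nonempty → ∃ A B, IsOpen A ∧ A.Nonempty ∧ IsOpen B ∧ B.Nonempty ∧
      A ⊆ U ∧ B ⊆ U ∧ ∀ a ∈ A, ∀ b ∈ B, P n a b) :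
    ∃ x : (ℕ → Bool) → X, ∀ σ τ n, (∀ i < n, σ i = τ i) → σ n = true → τ n = false →
      P n (x σ) (x τ) := by
  have sh : ∀ A : Set X, IsOpen A → A.Nonempty →
      ∃ A', (IsOpen A' ∧ A'.Nonempty) ∧ _root_.closure A' ⊆ A := fun A a ⟨p, hp⟩ => by
    obtain ⟨t, t1, t2, t3⟩ := exists_mem_nhds_isClosed_subset (a.mem_nhds hp)
    exact ⟨interior t, ⟨isOpen_interior, p, mem_interior_iff_mem_nhds.2 t1⟩,
      (closure_minimal interior_subset t2).trans t3⟩
  have : ∀ (n : ℕ) (U : {U : Set X // IsOpen U ∧ U.Nonempty}),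
      ∃ c : Bool → {U : Set X // IsOpen U ∧ U.Nonempty}, (∀ b, _root_.closure (c b).1 ⊆ U.1) ∧
        ∀ a ∈ (c true).1, ∀ b ∈ (c false).1, P n a b := fun n U => by
    obtain ⟨A, B, a1, a2, b1, b2, a3, b3, e⟩ := hP n U.1 U.2.1 U.2.2
    obtain ⟨A', a4, a5⟩ := sh A a1 a2
    obtain ⟨B', b4, b5⟩ := sh B b1 b2
    refine ⟨fun b => cond b ⟨A', a4⟩ ⟨B', b4⟩, fun b => ?_, fun a ha b hb =>
      e a (a5 (_root_.subset_closure ha)) b (b5 (_root_.subset_closure hb))⟩
    cases b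
    exacts [b5.trans b3, a5.trans a3]
  choose c c1 c2 using this
  let V : (ℕ → Bool) → ℕ → {U : Set X // IsOpen U ∧ U.Nonempty} := fun σ n =>
    Nat.rec ⟨Set.univ, isOpen_univ, Set.univ_nonempty⟩ (fun n U => c n U (σ n)) n
  have v1 : ∀ σ n, V σ (n + 1) = c n (V σ n) (σ n) := fun _ _ => rfl
  have v2 : ∀ σ τ n, (∀ i < n, σ i = τ i) → V σ n = V τ n := fun σ τ n => by
    induction n with
    | zero => exact fun _ => rfl
    | succ n ih =>
      intro e
      rw [v1, v1, ih fun i hi => e i (hi.trans n.lt_succ_self), e n n.lt_succ_self]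
  have v3 : ∀ σ, Antitone fun n => (V σ n).1 := fun σ => antitone_nat_of_succ_le fun n =>
    _root_.subset_closure.trans (c1 n _ _)
  have : ∀ σ, ∃ y, ∀ n, y ∈ (V σ n).1 := fun σ => by
    obtain ⟨y, hy⟩ := h (fun n => (V σ n).1) fun n => (V σ n).2
    refine ⟨y, fun n => c1 n _ (σ n) (mem_closure_iff_nhds.2 fun W hW => ?_)⟩
    obtain ⟨m, m1, m2⟩ := hy W hW (n + 1)
    exact m2.mono (Set.inter_subset_inter_right _ (v3 σ m1))
  choose x hx using this
  refine ⟨x, fun σ τ n e a b => c2 n (V σ n) _ ?_ _ ?_⟩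
  · simpa only [v1, a] using hx σ (n + 1)
  · simpa only [v1, b, v2 σ τ n e] using hx τ (n + 1)

theorem Feeb.baire [RegularSpace X] [Nonempty X] (h : Feeb X) (S : ℕ → Set X)
    (h1 : ∀ g, ∃ n, g ∈ S n) : ∃ n x, _root_.closure (S n) ∈ 𝓝 x := by
  by_contra c
  push Not at c
  obtain ⟨x, hx⟩ := h.tree (fun n a _ => a ∉ S n) fun n U u1 ⟨p, hp⟩ => by
    have a1 : IsOpen (U \ _root_.closure (S n)) := u1.sdiff isClosed_closure
    have a2 : (U \ _root_.closure (S n)).Nonempty := by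
      by_contra d
      exact c n p (mem_of_superset (u1.mem_nhds hp)
        (Set.diff_eq_empty.1 (Set.not_nonempty_iff_eq_empty.1 d)))
    exact ⟨_, _, a1, a2, a1, a2, Set.sdiff_subset, Set.sdiff_subset,
      fun a ha _ _ e => ha.2 (_root_.subset_closure e)⟩
  obtain ⟨n, hn⟩ := h1 (x fun _ => true)
  exact hx (fun _ => true) (fun i => decide (i < n)) n (fun i hi => by simp [hi]) rfl (by simp) hn

theorem mk_closure_le [T2Space X] (s : Set X) :
    #(_root_.closure s) ≤ (2 : Cardinal.{u}) ^ (2 : Cardinal.{u}) ^ #s := by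
  rw [← mk_set, ← mk_set]
  refine mk_le_of_injective (f := fun x => (comap ((↑) : s → X) (𝓝 x.1)).sets) fun x y e => ?_
  have e' : comap ((↑) : s → X) (𝓝 x.1) = comap (↑) (𝓝 y.1) := Filter.filter_eq e
  have := mem_closure_iff_comap_neBot.1 x.2
  exact Subtype.ext (tendsto_nhds_unique (tendsto_comap (f := ((↑) : s → X)) (x := 𝓝 x.1))
    (e' ▸ tendsto_comap))

end Space

variable {G : Type u} [AddCommGroup G] [TopologicalSpace G] [IsTopologicalAddGroup G]

theorem Feeb.pre (h : Feeb G) {V : Set G} (hV : V ∈ 𝓝 (0 : G)) :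
    ∃ l : Finset G, ∀ g, ∃ a ∈ l, g - a ∈ V := by
  by_contra c
  push Not at c
  obtain ⟨x, -, h2⟩ := exists_seq_of_forall_finset_exists (fun _ : G => True)
    (fun a b => b - a ∉ V) fun s _ => (c s).imp fun _ e => ⟨trivial, e⟩
  obtain ⟨A, a1, a2⟩ := exists_nhds_zero_quarter hV
  have a3 : A ∩ -A ∈ 𝓝 (0 : G) := inter_mem a1 (neg_mem_nhds_zero G a1)
  have a4 : ∀ p : G, IsOpen ((fun z => z - p) ⁻¹' interior (A ∩ -A)) ∧
      p ∈ (fun z => z - p) ⁻¹' interior (A ∩ -A) := fun p =>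
    ⟨isOpen_interior.preimage (by fun_prop), by simpa using mem_interior_iff_mem_nhds.2 a3⟩
  obtain ⟨y, hy⟩ := h (fun n => (fun z => z - x n) ⁻¹' interior (A ∩ -A))
    fun n => ⟨(a4 _).1, _, (a4 _).2⟩
  have w := (a4 y).1.mem_nhds (a4 y).2
  obtain ⟨m, -, p, p1, p2⟩ := hy _ w 0
  obtain ⟨n, b, q, q1, q2⟩ := hy _ w (m + 1)
  refine h2 m n b ?_
  have := a2 (interior_subset q1).1 (Set.mem_neg.1 (interior_subset q2).2)
    (Set.mem_neg.1 (interior_subset p1).2) (interior_subset p2).1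
  simp only at this
  convert this using 1
  abel

variable [T2Space G]

theorem Feeb.small (h : Feeb G) (m : ℕ → ℕ) (S : ℕ → Set G) (h1 : ∀ g, ∃ n, m n • g ∈ S n) :
    ∃ n, #(Qt (⊥ : AddSubgroup G) (m n)) ≤
      (2 : Cardinal.{u}) ^ (2 : Cardinal.{u}) ^ max ℵ₀ #(S n) := by
  obtain ⟨n, x, hx⟩ := h.baire (fun n => {g | m n • g ∈ S n}) h1
  have hV : (fun v => x + v) ⁻¹' _root_.closure {g | m n • g ∈ S n} ∈ 𝓝 (0 : G) :=
    (continuous_const.add continuous_id).continuousAt.preimage_mem_nhds (by simpa using hx)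
  obtain ⟨l, hl⟩ := h.pre hV
  have hc : ℵ₀ ≤ (2 : Cardinal.{u}) ^ (2 : Cardinal.{u}) ^ max ℵ₀ #(S n) :=
    ((le_max_left _ _).trans (cantor _).le).trans (cantor _).le
  refine ⟨n, (Qt_le (α := l × _root_.closure (S n))
    (fun p => m n • p.1.1 + p.2.1 - m n • x) fun g => ?_).trans ?_⟩
  · obtain ⟨a, a1, a2⟩ := hl g
    refine ⟨(⟨a, a1⟩, ⟨m n • (x + (g - a)), map_mem_closure (continuous_nsmul (m n)) a2
      fun _ e => e⟩), ?_⟩
    refine AddSubgroup.mem_bot.2 ?_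
    simp only [smul_sub, smul_add]
    abel
  · rw [← mul_def]
    refine mul_le_of_le hc ((lt_aleph0_of_finite _).le.trans hc) ((mk_closure_le _).trans ?_)
    exact power_le_power_left two_ne_zero (power_le_power_left two_ne_zero (le_max_right _ _))

theorem Feeb.sepa (h : Feeb G) (k : ℕ → ℕ) (hk : ∀ n, (Qt (⊥ : AddSubgroup G) (k n)).Infinite) :
    ∃ x : (ℕ → Bool) → G, ∀ σ τ, σ ≠ τ → ∃ n, σ n ≠ τ n ∧ k n • x σ ≠ k n • x τ := by
  classical
  obtain ⟨x, hx⟩ := h.tree (fun n a b => k n • a ≠ k n • b) fun n U u1 ⟨p, hp⟩ => by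
    obtain ⟨q, q1, q2⟩ : ∃ q ∈ U, k n • p ≠ k n • q := by
      by_contra c
      push Not at c
      have hV : (fun v => p + v) ⁻¹' U ∈ 𝓝 (0 : G) :=
        (continuous_const.add continuous_id).continuousAt.preimage_mem_nhds
          (by simpa using u1.mem_nhds hp)
      obtain ⟨l, hl⟩ := h.pre hV
      refine hk n (Qt_fin_of _ (l.finite_toSet.image fun a => k n • a) fun g => ?_)
      obtain ⟨a, a1, a2⟩ := hl g
      exact ⟨_, ⟨a, a1, rfl⟩, by simpa [smul_sub] using c _ a2⟩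
    obtain ⟨A, B, a1, b1, a2, b2, e⟩ := t2_separation q2
    exact ⟨U ∩ (fun z => k n • z) ⁻¹' A, U ∩ (fun z => k n • z) ⁻¹' B,
      u1.inter (a1.preimage (continuous_nsmul _)), ⟨p, hp, a2⟩,
      u1.inter (b1.preimage (continuous_nsmul _)), ⟨q, q1, b2⟩, Set.inter_subset_left,
      Set.inter_subset_left, fun a ha b hb d => Set.disjoint_left.1 e ha.2
        (show k n • a ∈ B from d ▸ (show k n • b ∈ B from hb.2))⟩
  refine ⟨x, fun σ τ e => ?_⟩
  have e' : ∃ n, σ n ≠ τ n := Function.ne_iff.1 e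
  have a := Nat.find_spec e'
  have b : ∀ i < Nat.find e', σ i = τ i := fun i hi => not_not.1 (Nat.find_min e' hi)
  refine ⟨_, a, ?_⟩
  cases d : σ (Nat.find e')
  · exact (hx τ σ _ (fun i hi => (b i hi).symm) (by simpa [d] using a) d).symm
  · exact hx σ τ _ b d (by simpa [d] using a)

theorem mk_cantor : #(ULift.{u} (ℕ → Bool)) = 𝔠 := by simp

theorem Feeb.cont_le (h : Feeb G) {m : ℕ} (hm : (Qt (⊥ : AddSubgroup G) m).Infinite) :
    𝔠 ≤ #(Qt (⊥ : AddSubgroup G) m) := by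
  obtain ⟨x, hx⟩ := h.sepa (fun _ => m) fun _ => hm
  rw [← mk_cantor]
  refine le_Qt (fun σ => x σ.down) fun σ τ e => by_contra fun d => ?_
  obtain ⟨n, -, a⟩ := hx σ.down τ.down fun c => d (ULift.ext _ _ c)
  exact a (sub_eq_zero.1 e)

theorem Feeb.cont_le_rank (h : Feeb G) (hu : ∀ m, 0 < m → (Qt (⊥ : AddSubgroup G) m).Infinite)
    {B : Set G} (hB : ∀ g, ∃ k : ℕ, (k + 1) • g ∈ closure B) : 𝔠 ≤ #B := by
  obtain ⟨x, hx⟩ := h.sepa Nat.factorial fun n => hu _ n.factorial_pos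
  choose k hk using hB
  have : 𝔠 ≤ #(ULift.{u} (ℕ × List Bool) × closure B) := by
    rw [← mk_cantor]
    refine mk_le_of_injective (f := fun σ => (⟨(k (x σ.down),
      (List.range (k (x σ.down) + 1)).map σ.down)⟩, ⟨_, hk (x σ.down)⟩)) fun σ τ e => ?_
    by_contra d
    obtain ⟨n, a, b⟩ := hx σ.down τ.down fun c => d (ULift.ext _ _ c)
    simp only [Prod.mk.injEq, ULift.up.injEq, Subtype.mk.injEq] at e
    obtain ⟨⟨e1, e2⟩, e3⟩ := e
    rw [← e1] at e2 e3
    rcases lt_or_ge n (k (x σ.down) + 1) with c | c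
    · exact a (List.map_inj_left.1 e2 n (List.mem_range.2 c))
    · obtain ⟨j, hj⟩ := Nat.dvd_factorial (Nat.succ_pos _) c
      exact b (by rw [hj, mul_comm, mul_smul, mul_smul, e3])
  rw [← mul_def] at this
  have h2 := this.trans (mul_le_of_le (le_max_left ℵ₀ #B) (mk_le_aleph0.trans (le_max_left _ _))
    (mk_cl_le (le_max_left _ _) (le_max_right _ _)))
  exact (le_max_iff.1 h2).resolve_left aleph0_lt_continuum.not_ge

end Pool.Agent.Lib.MP_fe6d4f_gt.V
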