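import Pool.Agent.Lib.MP_fe6d4f_gt.V.Space
import Pool.Agent.Lib.MP_fe6d4f_gt.V.Top
import Pool.Agent.Lib.MP_fe6d4f_gt.Sp.Defs

/-!
From a pseudocompact group topology to a group topology with a stationary winning strategy.
-/

namespace Pool.Agent.Lib.MP_fe6d4f_gt.V

open Function Filter Topology AddSubgroup Cardinal

universe u

theorem dich (α : Type u) [Infinite α] (h : ∀ l < #α, l ^ ℵ₀ ≤ #α) :
    #α ^ ℵ₀ ≤ #α ∨ ∃ R : ℕ → Set α, Monotone R ∧ (∀ b, ∃ n, b ∈ R n) ∧ ∀ n, #(R n) < #α := by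
  obtain ⟨e⟩ : Nonempty (α ≃ (#α).ord.ToType) := Cardinal.eq.1 (mk_ord_toType _).symm
  have hc := aleph0_le_mk α
  have sm : ∀ i, #(e ⁻¹' Set.Iic i) < #α := fun i => by
    rw [mk_preimage_equiv, ← Set.Iio_insert]
    exact mk_insert_le.trans_lt (add_lt_of_lt hc (mk_Iio_toType_ord_lt i)
      (one_lt_aleph0.trans_le hc))
  by_cases c : ∀ f : ℕ → α, ∃ i, ∀ n, e (f n) ≤ i
  · left
    have h1 : #α ^ ℵ₀ = #(ULift.{u} ℕ → α) := by simp
    rw [h1, ← mk_univ (α := ULift.{u} ℕ → α)]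
    refine (mk_le_mk_of_subset (t := ⋃ i, Set.range fun (f : ULift.{u} ℕ → e ⁻¹' Set.Iic i) n =>
      (f n).1) fun f _ => ?_).trans ((mk_iUnion_le _).trans ?_)
    · obtain ⟨i, hi⟩ := c fun n => f ⟨n⟩
      exact Set.mem_iUnion.2 ⟨i, fun n => ⟨f n, hi n.down⟩, rfl⟩
    · have : Nonempty (#α).ord.ToType := ⟨e (Classical.arbitrary α)⟩
      refine mul_le_of_le hc (mk_ord_toType _).le (ciSup_le fun i => mk_range_le.trans ?_)
      simpa using h _ (sm i)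
  · right
    push Not at c
    obtain ⟨f, hf⟩ := c
    refine ⟨fun n => e ⁻¹' Set.Iic (partialSups (fun n => e (f n)) n), fun a b hab =>
      Set.preimage_mono (Set.Iic_subset_Iic.2 ((partialSups _).monotone hab)), fun b => ?_,
      fun n => sm _⟩
    obtain ⟨n, hn⟩ := hf (e b)
    exact ⟨n, hn.le.trans (le_partialSups (fun n => e (f n)) n)⟩

/-- The cardinal condition below `γ`. -/
def Tame (γ : Cardinal.{u}) : Prop :=
  ∀ ν : Cardinal.{u}, 𝔠 < ν → (∀ l < ν, (2 : Cardinal.{u}) ^ (2 : Cardinal.{u}) ^ l < γ) →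
    ν ^ ℵ₀ ≤ Order.succ ν

theorem key {τ γ : Cardinal.{u}} (α : Type u) (hc : 𝔠 ≤ #α) (hτ : τ ≤ γ) (hs : Tame γ)
    (h2 : ∀ R : ℕ → Set α, Monotone R → (∀ b, ∃ n, b ∈ R n) →
      ∃ n, τ ≤ (2 : Cardinal.{u}) ^ (2 : Cardinal.{u}) ^ max ℵ₀ #(R n)) : Ok MdU #α τ := by
  have h0 : ℵ₀ < #α := aleph0_lt_continuum.trans_le hc
  have : Infinite α := infinite_iff.2 h0.le
  have mo : ∀ {a b : Cardinal.{u}}, a ≤ b →
      (2 : Cardinal.{u}) ^ (2 : Cardinal.{u}) ^ a ≤ (2 : Cardinal.{u}) ^ (2 : Cardinal.{u}) ^ b :=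
    fun e => power_le_power_left two_ne_zero (power_le_power_left two_ne_zero e)
  have sf : ∀ a : Cardinal.{u}, a ≤ a ^ ℵ₀ := fun a => self_le_power a one_le_aleph0
  have h3 : τ ≤ (2 : Cardinal.{u}) ^ (2 : Cardinal.{u}) ^ #α := by
    obtain ⟨n, hn⟩ := h2 (fun _ => Set.univ) monotone_const fun _ => ⟨0, trivial⟩
    rwa [mk_univ, max_eq_right h0.le] at hn
  obtain ⟨ν, n1, n2⟩ := wellFounded_lt.has_min
    {ν : Cardinal.{u} | τ ≤ (2 : Cardinal.{u}) ^ (2 : Cardinal.{u}) ^ ν ^ ℵ₀}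
    ⟨#α, h3.trans (mo (sf _))⟩
  have n3 : ∀ l < ν, (2 : Cardinal.{u}) ^ (2 : Cardinal.{u}) ^ l ^ ℵ₀ < τ := fun l hl =>
    not_le.1 fun e => n2 l e hl
  have pp : ∀ a : Cardinal.{u}, (a ^ ℵ₀) ^ ℵ₀ = a ^ ℵ₀ := fun a => by
    rw [← power_mul, aleph0_mul_aleph0]
  rcases le_or_gt ν 𝔠 with c | c
  · exact ok_U aleph0_lt_continuum continuum_power_aleph0.le hc
      (n1.trans (mo ((power_le_power_right c).trans continuum_power_aleph0.le)))
  refine ok_U ((aleph0_lt_continuum.trans c).trans_le (sf ν)) (pp ν).le ?_ n1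
  by_contra d
  have d1 : #α ≤ ν := Order.lt_succ_iff.1
    ((not_le.1 d).trans_le (hs ν c fun l hl => ((mo (sf l)).trans_lt (n3 l hl)).trans_le hτ))
  have d2 : ν = #α := (not_lt.1 (n2 _ (h3.trans (mo (sf _))))).antisymm d1
  subst d2
  rcases dich α (fun l hl => by
    by_contra e
    exact (n3 l hl).not_ge (n1.trans (mo ((power_le_power_right (not_le.1 e).le).trans (pp l).le))))
    with e | ⟨R, r1, r2, r3⟩
  · exact d e
  · obtain ⟨n, hn⟩ := h2 R r1 r2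
    exact (n3 _ (max_lt h0 (r3 n))).not_ge (hn.trans (mo (sf _)))

variable {G : Type u} [AddCommGroup G]

theorem Qt_bot_le (m : ℕ) : #(Qt (⊥ : AddSubgroup G) m) ≤ #G :=
  Qt_le id fun g => ⟨m • g, by simp⟩

/-- The induction started from the size information that pseudocompactness gives. -/
theorem Feeb.start [TopologicalSpace G] [IsTopologicalAddGroup G] [T2Space G] (h : Feeb G)
    {Md : Filter ℕ → Prop} (md : Mode Md)
    (ky : ∀ (τ : Cardinal.{u}) (α : Type u), 𝔠 ≤ #α → τ ≤ #G →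
      (∀ R : ℕ → Set α, Monotone R → (∀ b, ∃ n, b ∈ R n) →
        ∃ n, τ ≤ (2 : Cardinal.{u}) ^ (2 : Cardinal.{u}) ^ max ℵ₀ #(R n)) → Ok Md #α τ) :
    Pp Md (⊥ : AddSubgroup G) := by
  have mo : ∀ {a b : Cardinal.{u}}, a ≤ b →
      (2 : Cardinal.{u}) ^ (2 : Cardinal.{u}) ^ a ≤ (2 : Cardinal.{u}) ^ (2 : Cardinal.{u}) ^ b :=
    fun e => power_le_power_left two_ne_zero (power_le_power_left two_ne_zero e)
  have adm : Adm Md (⊥ : AddSubgroup G) := fun m hm => or_iff_not_imp_left.2 fun c =>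
    ky _ _ (h.cont_le c) (Qt_bot_le m) fun R _ r2 => by
      obtain ⟨n, hn⟩ := h.small (fun _ => m)
        (fun n => {z | ∃ r ∈ R n, r.1 = ((z : G) : G ⧸ (⊥ : AddSubgroup G))})
        fun g => (r2 ⟨_, g, rfl⟩).imp fun n e => ⟨_, e, rfl⟩
      refine ⟨n, hn.trans (mo (max_le_max le_rfl ?_))⟩
      refine mk_le_of_injective (f := fun z => ⟨z.2.choose, z.2.choose_spec.1⟩) fun z z' e => ?_
      have e' := congrArg (fun r : R n => r.1.1) e
      simp only [z.2.choose_spec.2, z'.2.choose_spec.2] at e'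
      exact Subtype.ext (sub_eq_zero.1 (QuotientAddGroup.eq_iff_sub_mem.1 e'))
  have hp : Pure (⊥ : AddSubgroup G) := fun k g e => ⟨0, zero_mem _, by rwa [smul_zero]⟩
  by_cases c : ∃ q, 0 < q ∧ ∀ g : G, q • g = 0
  · obtain ⟨q, q1, q2⟩ := c
    exact bdd_step md q q1 ⊥ hp adm q2
  obtain ⟨B, -, -, b1, b2⟩ := exists_ind (H := (⊥ : AddSubgroup G)) (fun _ k => 0 ∣ k) Set.univ
    (by simp) ∅ (fun _ => False.elim) fun _ => False.elim
  have b3 : ∀ g, ∃ k : ℕ, (k + 1) • g ∈ closure B := fun g => by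
    rcases b2 g trivial with e | ⟨_ | k, e, e'⟩
    exacts [⟨0, by simpa using subset_closure e⟩, (e dvd_rfl).elim, ⟨k, by simpa using e'⟩]
  obtain ⟨τ, ⟨m, m1, rfl⟩, m2⟩ := wellFounded_lt.has_min
    {τ : Cardinal.{u} | ∃ m, 0 < m ∧ #(Qt (⊥ : AddSubgroup G) m) = τ} ⟨_, 1, one_pos, rfl⟩
  obtain ⟨Λ, I, hΛ, hI, sp, ⟨e⟩, l2⟩ := ky _ B
    (h.cont_le_rank (fun m hm f => c (Qt_bdd f hm)) b3) (Qt_bot_le m) fun R r1 r2 => by
      obtain ⟨n, hn⟩ := h.small Nat.factorial (fun n => closure (Subtype.val '' R n)) fun g => by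
        obtain ⟨k, hk⟩ := b3 g
        obtain ⟨F, f1, f2⟩ := fin_cl hk
        obtain ⟨n, n1, n2⟩ := ((eventually_ge_atTop (k + 1)).and ((eventually_all_finset F).2
          fun b hb => let ⟨j, hj⟩ := r2 ⟨b, f1 hb⟩
            (eventually_ge_atTop j).mono fun n e =>
              (⟨_, r1 e hj, rfl⟩ : b ∈ Subtype.val '' R n))).exists
        obtain ⟨d, hd⟩ := Nat.dvd_factorial k.succ_pos n1
        exact ⟨n, by rw [hd, mul_comm, mul_smul]; exact nsmul_mem (closure_mono n2 f2) d⟩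
      refine ⟨n, (not_lt.1 (m2 _ ⟨_, n.factorial_pos, rfl⟩)).trans (hn.trans (mo
        (max_le (le_max_left _ _) (mk_cl_le (le_max_left _ _) ?_))))⟩
      exact mk_image_le.trans (le_max_right _ _)
  exact big_step hΛ hI sp hp adm zero_ne_one (by simp) (fun a => (e a).1)
    (Subtype.val_injective.comp e.injective) (by simp) (b1.mono fun _ ⟨a, h⟩ => h ▸ (e a).2) m1 l2
    fun K => bdd_step md _ m1 K

/-- The topology induced by the characters. -/
theorem Pp.final {Md : Filter ℕ → Prop} (h : Pp Md (⊥ : AddSubgroup G)) :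
    ∃ τ : TopologicalSpace G, IsTopologicalAddGroup G ∧ T2Space G ∧
      ∃ s : Set G → G, (∀ U, IsOpen U → U.Nonempty → s U ∈ U) ∧
        ∀ U : ℕ → Set G, ∀ F, Md F → ∃ x F', Md F' ∧ F' ≤ F ∧
          Tendsto (fun n => s (U n)) F' (𝓝 x) := by
  classical
  obtain ⟨Φ, D, h⟩ := h
  let φ : G →+ (Φ → UnitAddCircle) := Pi.addMonoidHom fun i => i.1
  have h1 : Injective φ := (injective_iff_map_eq_zero φ).2 fun g e =>
    h.sep g trivial fun ψ hψ => congrFun e ⟨ψ, hψ⟩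
  let τ : TopologicalSpace G := TopologicalSpace.induced φ inferInstance
  have hd : ∀ U : Set G, ∃ g ∈ D, IsOpen U → U.Nonempty → g ∈ U := fun U => by
    by_cases c : IsOpen U ∧ U.Nonempty
    · obtain ⟨⟨W, w1, rfl⟩, g, hg⟩ := c
      obtain ⟨J, u, a, b⟩ := isOpen_pi_iff.1 w1 _ hg
      obtain ⟨d, d1, d2⟩ := h.dns g (J.toList.map Subtype.val)
        (List.forall_mem_map.2 fun i _ => i.2)
      refine ⟨d, d1, fun _ _ => b fun i hi => ?_⟩
      have : φ d i = φ g i := d2 i.1 (List.mem_map_of_mem (Finset.mem_toList.2 hi))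
      rw [this]
      exact (a i hi).2
    · obtain ⟨d, d1, -⟩ := h.dns 0 [] (by simp)
      exact ⟨d, d1, fun a b => (c ⟨a, b⟩).elim⟩
  choose s s1 s2 using hd
  refine ⟨τ, topologicalAddGroup_induced φ,
    T2Space.of_injective_continuous h1 continuous_induced_dom, s, s2, fun U F hF => ?_⟩
  obtain ⟨y, -, F', f1, f2, f3⟩ := h.seq (fun n => s (U n)) (fun n => s1 _) F hF
  refine ⟨y, F', f1, f2, ?_⟩
  rw [nhds_induced, tendsto_comap_iff, tendsto_pi_nhds]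
  exact fun i => f3 i.1 i.2

theorem feeb_grp [TopologicalSpace G] [IsTopologicalAddGroup G]
    (h : ∀ f : G → ℝ, Continuous f → ∃ C, ∀ x, |f x| ≤ C) : Feeb G := by
  have : CompletelyRegularSpace G :=
    @UniformSpace.toCompletelyRegularSpace G (IsTopologicalAddGroup.rightUniformSpace G)
  exact feeb_of h

theorem sp_of_tame (hp : ∃ τ : TopologicalSpace G, IsTopologicalAddGroup G ∧ T2Space G ∧
      ∀ f : G → ℝ, Continuous f → ∃ C, ∀ x, |f x| ≤ C) (hs : Tame #G) :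
    ∃ τ : TopologicalSpace G, IsTopologicalAddGroup G ∧ T2Space G ∧ Sp.WinsSp G τ := by
  obtain ⟨τ, a, b, c⟩ := hp
  obtain ⟨τ', a', b', s, s1, s2⟩ :=
    ((feeb_grp c).start mode_U fun _ α h1 h2 h3 => key α h1 h2 hs h3).final
  refine ⟨τ', a', b', s, s1, fun U _ => ?_⟩
  obtain ⟨x, _, rfl, -, e⟩ := s2 U _ rfl
  exact ⟨x, fun V v1 v2 f => f.notMem_hyperfilter (e.eventually (v1.mem_nhds v2))⟩

end Pool.Agent.Lib.MP_fe6d4f_gt.V
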