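import Pool.Agent.Lib.MP_fe6d4f_gt.V.Core

/-!
A dense subset of size `Λ` of the Cantor cube of weight `2 ^ Λ` closed under limits along one
free ultrafilter.
-/

namespace Pool.Agent.Lib.MP_fe6d4f_gt.V

open Function Filter Topology Cardinal

universe u

/-- Arities of the tree of iterated limits. -/
def ar (B : Type u) : Option B → Type u
  | none => ULift.{u} ℕ
  | some _ => PEmpty.{u + 1}

/-- Evaluation of a tree of iterated limits. -/
def ev {B β : Type u} (base : B → β) (op : (ℕ → β) → β) : WType (ar B) → β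
  | ⟨none, f⟩ => op fun n => ev base op (f ⟨n⟩)
  | ⟨some b, _⟩ => base b

theorem exists_closed {B β : Type u} (base : B → β) (op : (ℕ → β) → β) {κ : Cardinal.{u}}
    (hκ : ℵ₀ ≤ κ) (h1 : κ ^ ℵ₀ ≤ κ) (hB : #B ≤ κ) (P : β → Prop) (p1 : ∀ b, P (base b))
    (p2 : ∀ f, (∀ n, P (f n)) → P (op f)) :
    ∃ Y : Set β, #Y ≤ κ ∧ (∀ b, base b ∈ Y) ∧ (∀ f, (∀ n, f n ∈ Y) → op f ∈ Y) ∧ ∀ y ∈ Y, P y := by
  refine ⟨Set.range (ev base op), mk_range_le.trans (WType.cardinalMk_le_of_le ?_),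
    fun b => ⟨⟨some b, PEmpty.elim⟩, rfl⟩, fun f hf => ?_, ?_⟩
  · refine (sum_le_sum _ (fun _ => κ) fun a => ?_).trans ?_
    · cases a with
      | none => simpa [ar] using h1
      | some b => simpa [ar] using one_le_aleph0.trans hκ
    · rw [sum_const', mk_option]
      exact mul_le_of_le hκ (add_le_of_le hκ hB (one_le_aleph0.trans hκ)) le_rfl
  · choose w hw using hf
    refine ⟨⟨none, fun n => w n.down⟩, ?_⟩
    simp only [ev, hw]
  · rintro _ ⟨w, rfl⟩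
    induction w with
    | mk a f ih =>
      cases a with
      | none => exact p2 _ fun n => ih ⟨n⟩
      | some b => exact p1 b

/-- The class formed by one free ultrafilter. -/
def MdU (F : Filter ℕ) : Prop := F = (hyperfilter ℕ : Filter ℕ)

theorem mode_U : Mode MdU := by
  rintro q x hx _ rfl
  have : ⋃ c ∈ {c | c < q}, {n | x n = c} ∈ hyperfilter ℕ :=
    univ_mem' fun n => Set.mem_biUnion (hx n) rfl
  obtain ⟨c, c1, c2⟩ := (Ultrafilter.finite_biUnion_mem_iff (Set.finite_lt_nat q)).1 this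
  exact ⟨c, c1, _, rfl, le_rfl, c2⟩

theorem off_of {I Λ : Type u} (hΛ : ℵ₀ < #Λ) (l : List (I × Λ × ℕ → Bool))
    (h : ∀ y ∈ l, {ξ | ∃ X n, y (X, ξ, n) = true}.Countable) :
    ∃ ξ, ∀ y ∈ l, ∀ X n, y (X, ξ, n) = false := by
  have h1 : (⋃ y ∈ {y | y ∈ l}, {ξ | ∃ X n, y (X, ξ, n) = true}).Countable :=
    l.finite_toSet.countable.biUnion h
  by_contra c
  push Not at c
  refine hΛ.not_ge ?_
  rw [← mk_univ, le_aleph0_iff_set_countable]
  refine h1.mono fun ξ _ => ?_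
  obtain ⟨y, y1, X, n, y2⟩ := c ξ
  exact Set.mem_biUnion y1 ⟨X, n, by simpa using y2⟩

theorem continuum_le_of {κ : Cardinal.{u}} (hκ : ℵ₀ ≤ κ) (h1 : κ ^ ℵ₀ ≤ κ) : 𝔠 ≤ κ := by
  rw [← two_power_aleph0]
  exact (power_le_power_right ((nat_lt_aleph0 2).le.trans hκ)).trans h1

theorem spc_U (Λ : Type u) (hΛ : ℵ₀ < #Λ) (h1 : #Λ ^ ℵ₀ ≤ #Λ) : Spc MdU (Set Λ) Λ := by
  classical
  have : Infinite Λ := infinite_iff.2 hΛ.le
  let base : List Λ × List (List Λ × Λ × (ℕ → Bool)) → Set Λ × Λ × ℕ → Bool := fun b j =>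
    decide (∃ e ∈ b.2, e.2.1 = j.2.1 ∧ (∀ ζ ∈ b.1, ζ ∈ j.1 ↔ ζ ∈ e.1) ∧ e.2.2 j.2.2 = true)
  let op : (ℕ → Set Λ × Λ × ℕ → Bool) → Set Λ × Λ × ℕ → Bool := fun f j =>
    decide ({n | f n j = true} ∈ hyperfilter ℕ)
  obtain ⟨Y, y1, y2, y3, y4⟩ := exists_closed base op hΛ.le h1 (by
      have hc := continuum_le_of hΛ.le h1
      rw [← mul_def, mk_list_eq_mk, mk_list_eq_mk, ← mul_def, mk_list_eq_mk]
      refine mul_le_of_le hΛ.le le_rfl (mul_le_of_le hΛ.le le_rfl ?_)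
      simp only [mk_prod, lift_uzero, mk_pi, prod_const, mk_bool, mk_nat, lift_id, lift_power,
        lift_ofNat, lift_aleph0, two_power_aleph0, lift_continuum]
      exact mul_le_of_le hΛ.le le_rfl hc)
    (fun y => {ξ | ∃ X n, y (X, ξ, n) = true}.Countable)
    (fun b => (b.2.map fun e => e.2.1).finite_toSet.countable.mono (by
      rintro ξ ⟨X, n, e⟩
      obtain ⟨e, e1, e2, -⟩ := of_decide_eq_true e
      exact List.mem_map.2 ⟨e, e1, e2⟩))
    (fun f hf => (Set.countable_iUnion hf).mono (by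
      rintro ξ ⟨X, n, e⟩
      obtain ⟨k, hk⟩ := Ultrafilter.nonempty_of_mem (of_decide_eq_true e)
      exact Set.mem_iUnion.2 ⟨k, X, n, hk⟩))
  refine ⟨Y, y1, fun l hl => off_of hΛ l fun y hy => y4 y (hl y hy), fun l w => ?_, ?_⟩
  · have : ∀ X X' : Set Λ, ∃ ξ, (ξ ∈ X ↔ ξ ∈ X') → X = X' := fun X X' => by
      by_contra c
      push Not at c
      exact (c (Classical.arbitrary Λ)).2 (Set.ext fun ξ => (c ξ).1)
    choose d hd using this
    let a : List Λ := l.flatMap fun p => l.map fun p' => d p.1 p'.1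
    refine ⟨_, y2 (a, l.map fun p => (a.filter (· ∈ p.1), p.2, w p)), fun p hp n =>
      Bool.eq_iff_iff.2 ?_⟩
    simp only [base]
    rw [decide_eq_true_iff]
    refine ⟨?_, fun e => ⟨_, List.mem_map_of_mem hp, rfl, fun ζ hζ => by simp [hζ], e⟩⟩
    rintro ⟨_, b1, b2, b3, b4⟩
    obtain ⟨p', b5, rfl⟩ := List.mem_map.1 b1
    have hm : d p.1 p'.1 ∈ a := List.mem_flatMap.2 ⟨p, hp, List.mem_map_of_mem b5⟩
    rwa [show p = p' from Prod.ext (hd _ _ (by simpa [hm] using b3 _ hm)) b2.symm]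
  · rintro y hy _ rfl
    refine ⟨op y, y3 y hy, _, rfl, le_rfl, fun j => ?_⟩
    by_cases c : {n | y n j = true} ∈ hyperfilter ℕ
    · exact mem_of_superset c fun n hn => by simpa [op, c] using hn
    · exact mem_of_superset (Ultrafilter.compl_mem_iff_notMem.2 c) fun n hn => by
        simpa [op, c] using hn

theorem ok_U {a b Λ : Cardinal.{u}} (h0 : ℵ₀ < Λ) (h1 : Λ ^ ℵ₀ ≤ Λ) (h2 : Λ ≤ a)
    (h3 : b ≤ (2 : Cardinal.{u}) ^ (2 : Cardinal.{u}) ^ Λ) : Ok MdU a b := by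
  induction Λ using Cardinal.inductionOn with | _ Λ
  exact ⟨Λ, Set Λ, h0, by rw [mk_set]; exact (cantor _).le, spc_U Λ h0 h1, h2, by
    rwa [mk_set, mk_set]⟩

end Pool.Agent.Lib.MP_fe6d4f_gt.V
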